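import Pool.Agent.R729.WD.Top

/-!
# Families that come from an increasing chain of functions
-/

open Set Filter Topology

namespace Pool.Agent.R729.WD

universe u

/-- A chain family: columns `C n`, for every index `i` and every column a finite nonempty set
`A i n ⊆ C n`, and for `i < j` the set `A i n` lies below `A j n` for almost all `n`. -/
structure ChainFam {C : ℕ → Type u} [∀ n, LinearOrder (C n)] {I : Type u} [LinearOrder I]
    (A : I → ∀ n, Finset (C n)) : Prop where
  ne : ∀ i n, (A i n).Nonempty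
  chain : ∀ i j, i < j → ∃ N, ∀ n, N ≤ n → ∀ x ∈ A i n, ∀ y ∈ A j n, x < y

/-- the graph of `A i` -/
def graph {C : ℕ → Type u} {I : Type u} (A : I → ∀ n, Finset (C n)) (i : I) : Set (Σ n, C n) :=
  {g | g.2 ∈ A i g.1}

section

variable {C : ℕ → Type u} [∀ n, LinearOrder (C n)] {I : Type u} [LinearOrder I]
  {A : I → ∀ n, Finset (C n)}

omit [∀ n, LinearOrder (C n)] [LinearOrder I] in
lemma graph_fin (i : I) (N : ℕ) : {g | g ∈ graph A i ∧ g.1 < N}.Finite := by
  have : {g | g ∈ graph A i ∧ g.1 < N} ⊆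
      ⋃ n ∈ Finset.range N, (Sigma.mk n) '' (A i n : Set (C n)) := by
    rintro ⟨n, x⟩ ⟨hx, hn⟩
    exact mem_biUnion (Finset.mem_coe.mpr (Finset.mem_range.mpr hn)) ⟨x, hx, rfl⟩
  refine Set.Finite.subset ?_ this
  exact Set.Finite.biUnion (Finset.finite_toSet _) fun n _ => (Finset.finite_toSet _).image _

lemma graph_infinite (h : ChainFam A) (i : I) : (graph A i).Infinite := by
  choose x hx using h.ne i
  refine Set.infinite_of_injective_forall_mem (f := fun n => (⟨n, x n⟩ : Σ n, C n)) ?_ ?_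
  · intro m n hmn
    exact congrArg Sigma.fst hmn
  · intro n
    exact hx n

lemma graph_ad (h : ChainFam A) (i j : I) (hij : i ≠ j) : (graph A i ∩ graph A j).Finite := by
  rcases lt_or_gt_of_ne hij with hlt | hlt
  · obtain ⟨N, hN⟩ := h.chain i j hlt
    refine (graph_fin (A := A) i N).subset ?_
    rintro ⟨n, x⟩ ⟨h1, h2⟩
    refine ⟨h1, ?_⟩
    by_contra hcon
    exact lt_irrefl _ (hN n (not_lt.mp hcon) x h1 x h2)
  · obtain ⟨N, hN⟩ := h.chain j i hlt
    refine (graph_fin (A := A) i N).subset ?_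
    rintro ⟨n, x⟩ ⟨h1, h2⟩
    refine ⟨h1, ?_⟩
    by_contra hcon
    exact lt_irrefl _ (hN n (not_lt.mp hcon) x h2 x h1)

lemma exists_seq' {X : Type u} [LinearOrder X] [WellFoundedLT X] (E : Set X) (hE : E.Infinite) :
    ∃ d : ℕ → X, StrictMono d ∧ ∀ n, d n ∈ E := by
  obtain ⟨g, hg⟩ := exists_increasing_or_nonincreasing_subseq (· < ·)
    (fun n => (hE.natEmbedding E n : X))
  rcases hg with hg | hg
  · exact ⟨fun n => (hE.natEmbedding E (g n) : X), fun m n hmn => hg m n hmn,
      fun n => (hE.natEmbedding E (g n)).2⟩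
  · exfalso
    have hanti : StrictAnti (fun n => (hE.natEmbedding E (g n) : X)) := by
      intro m n hmn
      have h1 := hg m n hmn
      have h2 : (hE.natEmbedding E (g m) : X) ≠ hE.natEmbedding E (g n) := by
        intro h
        have := (hE.natEmbedding E).injective (Subtype.ext h)
        exact (ne_of_lt (g.strictMono hmn)) this
      exact lt_of_le_of_ne (not_lt.mp h1) (Ne.symm h2)
    exact not_strictAnti_of_wellFoundedLT _ hanti

lemma graph_sep [WellFoundedLT I] (h : ChainFam A) : Sp.Sep (graph A) := by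
  classical
  intro D hD
  obtain ⟨s, hs, hsD⟩ := exists_seq' D hD
  -- thresholds
  have ht : ∀ i j, ∃ N, i < j → ∀ n, N ≤ n → ∀ x ∈ A i n, ∀ y ∈ A j n, x < y := by
    intro i j
    by_cases hij : i < j
    · obtain ⟨N, hN⟩ := h.chain i j hij
      exact ⟨N, fun _ => hN⟩
    · exact ⟨0, fun h => absurd h hij⟩
  choose t ht using ht
  -- the pivot above the sequence
  have hγ : ∃ γ : I, (∃ b, b ∈ upperBounds (range s)) →
      (∀ k, s k < γ) ∧ ∀ b ∈ upperBounds (range s), γ ≤ b := by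
    by_cases hub : (upperBounds (range s)).Nonempty
    · refine ⟨WellFounded.min (wellFounded_lt (α := I)) _ hub, fun _ => ⟨fun k => ?_, ?_⟩⟩
      · exact lt_of_lt_of_le (hs (Nat.lt_succ_self k))
          ((WellFounded.min_mem (wellFounded_lt (α := I)) _ hub) ⟨k + 1, rfl⟩)
      · intro b hb
        exact not_lt.mp (WellFounded.not_lt_min (wellFounded_lt (α := I))
          (s := upperBounds (range s)) hb)
    · exact ⟨s 0, fun hcon => absurd hcon hub⟩
  obtain ⟨γ, hγ⟩ := hγ
  set T : ℕ → ℕ := fun k => k + ((Finset.range k).sup fun l => t (s l) (s k)) + t (s k) γ with hT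
  have hTk : ∀ k, k ≤ T k := fun k => by
    simp only [hT]
    omega
  have hTl : ∀ l k, l < k → t (s l) (s k) ≤ T k := fun l k hlk => by
    have : t (s l) (s k) ≤ (Finset.range k).sup fun l => t (s l) (s k) :=
      Finset.le_sup (f := fun l => t (s l) (s k)) (Finset.mem_range.mpr hlk)
    simp only [hT]
    omega
  have hTγ : ∀ k, t (s k) γ ≤ T k := fun k => by
    simp only [hT]
    omega
  refine ⟨s, hs.injective, hsD, fun k => {g | g.1 < T k}, ?_, ?_, ?_⟩
  · intro k
    refine (graph_fin (A := A) (s k) (T k)).subset ?_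
    rintro g ⟨hg1, hg2⟩
    exact ⟨hg2, hg1⟩
  · have key : ∀ l k, l < k → Disjoint (graph A (s l) \ {g | g.1 < T l})
        (graph A (s k) \ {g | g.1 < T k}) := by
      intro l k hlk
      rw [Set.disjoint_left]
      rintro ⟨n, x⟩ ⟨h1, _⟩ ⟨h2, h3⟩
      have hn : T k ≤ n := not_lt.mp h3
      exact lt_irrefl _ (ht (s l) (s k) (hs hlk) n ((hTl l k hlk).trans hn) x h1 x h2)
    intro k l hkl
    rcases lt_or_gt_of_ne hkl with h1 | h1
    · exact key k l h1
    · exact (key l k h1).symm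
  · intro i
    -- a bound for the indices
    have hbound : ∃ N, ∀ k, N ≤ k → ∀ g, g ∈ graph A i → s k ≠ i →
        g ∉ graph A (s k) \ {g | g.1 < T k} := by
      by_cases hi : ∃ k, i < s k
      · obtain ⟨k₀, hk₀⟩ := hi
        refine ⟨max (k₀ + 1) (t i (s k₀)), ?_⟩
        rintro k hk ⟨n, x⟩ h1 _ ⟨h2, h3⟩
        have hn : T k ≤ n := not_lt.mp h3
        have hk1 : k₀ < k := lt_of_lt_of_le (Nat.lt_succ_self _) ((le_max_left _ _).trans hk)
        have hk2 : t i (s k₀) ≤ n := ((le_max_right _ _).trans hk).trans ((hTk k).trans hn)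
        obtain ⟨y, hy⟩ := h.ne (s k₀) n
        have h4 := ht i (s k₀) hk₀ n hk2 x h1 y hy
        have h5 := ht (s k₀) (s k) (hs hk1) n ((hTl k₀ k hk1).trans hn) y hy x h2
        exact lt_irrefl _ (h4.trans h5)
      · push Not at hi
        have hub : i ∈ upperBounds (range s) := by
          rintro _ ⟨k, rfl⟩
          exact hi k
        obtain ⟨hγ1, hγ2⟩ := hγ ⟨i, hub⟩
        rcases (hγ2 i hub).lt_or_eq with hlt | heq
        · refine ⟨t γ i, ?_⟩
          rintro k hk ⟨n, x⟩ h1 _ ⟨h2, h3⟩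
          have hn : T k ≤ n := not_lt.mp h3
          obtain ⟨y, hy⟩ := h.ne γ n
          have h4 := ht (s k) γ (hγ1 k) n ((hTγ k).trans hn) x h2 y hy
          have h5 := ht γ i hlt n (hk.trans ((hTk k).trans hn)) y hy x h1
          exact lt_irrefl _ (h4.trans h5)
        · refine ⟨0, ?_⟩
          rintro k _ ⟨n, x⟩ h1 _ ⟨h2, h3⟩
          have hn : T k ≤ n := not_lt.mp h3
          subst heq
          exact lt_irrefl _ (ht (s k) γ (hγ1 k) n ((hTγ k).trans hn) x h2 x h1)
    obtain ⟨N, hN⟩ := hbound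
    have hfin : (⋃ k ∈ {k | k ∈ Finset.range N ∧ s k ≠ i}, (graph A i ∩ graph A (s k))).Finite := by
      refine Set.Finite.biUnion ?_ ?_
      · exact (Finset.finite_toSet (Finset.range N)).subset fun k hk => hk.1
      · intro k hk
        exact graph_ad h i (s k) (Ne.symm hk.2)
    refine hfin.subset ?_
    rintro g ⟨hg, k, hk, hgk⟩
    have hkN : k < N := by
      by_contra hcon
      exact hN k (not_lt.mp hcon) g hg hk hgk
    exact mem_biUnion (show k ∈ {k | k ∈ Finset.range N ∧ s k ≠ i} from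
      ⟨Finset.mem_range.mpr hkN, hk⟩) ⟨hg, hgk.1⟩

/-- `B` is positive: it is unbounded in infinitely many columns. -/
def Pos (B : Set (Σ n, C n)) : Prop := ∀ N, ∃ n, N ≤ n ∧ ∀ c : C n, ∃ x, c ≤ x ∧ (⟨n, x⟩ : Σ n, C n) ∈ B

/-- The filter of the sets which contain a final segment of almost every column. -/
def tailFilter (C : ℕ → Type u) [∀ n, LinearOrder (C n)] [∀ n, Nonempty (C n)] :
    Filter (Σ n, C n) where
  sets := {M | ∃ N, ∀ n, N ≤ n → ∃ c : C n, ∀ x, c ≤ x → (⟨n, x⟩ : Σ n, C n) ∈ M}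
  univ_sets := ⟨0, fun n _ => ⟨Classical.arbitrary _, fun x _ => mem_univ _⟩⟩
  sets_of_superset := by
    rintro M M' ⟨N, hN⟩ hMM'
    refine ⟨N, fun n hn => ?_⟩
    obtain ⟨c, hc⟩ := hN n hn
    exact ⟨c, fun x hx => hMM' (hc x hx)⟩
  inter_sets := by
    rintro M M' ⟨N, hN⟩ ⟨N', hN'⟩
    refine ⟨max N N', fun n hn => ?_⟩
    obtain ⟨c, hc⟩ := hN n ((le_max_left _ _).trans hn)
    obtain ⟨c', hc'⟩ := hN' n ((le_max_right _ _).trans hn)
    exact ⟨max c c', fun x hx => ⟨hc x ((le_max_left _ _).trans hx),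
      hc' x ((le_max_right _ _).trans hx)⟩⟩

variable [∀ n, Nonempty (C n)] [∀ n, NoMaxOrder (C n)]

omit [∀ n, NoMaxOrder (C n)] in
lemma tailFilter_neBot : (tailFilter C).NeBot := by
  refine ⟨fun h => ?_⟩
  have : (∅ : Set (Σ n, C n)) ∈ tailFilter C := h ▸ Filter.mem_bot
  obtain ⟨N, hN⟩ := this
  obtain ⟨c, hc⟩ := hN N le_rfl
  exact hc c le_rfl

lemma compl_graph_mem (i : I) : (graph A i)ᶜ ∈ tailFilter C := by
  refine ⟨0, fun n _ => ?_⟩
  by_cases hne : (A i n).Nonempty
  · obtain ⟨c, hc⟩ := exists_gt ((A i n).max' hne)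
    refine ⟨c, fun x hx hxA => ?_⟩
    have h1 : x ≤ (A i n).max' hne := Finset.le_max' _ _ hxA
    exact absurd (lt_of_lt_of_le hc hx) (not_lt.mpr h1)
  · rw [Finset.not_nonempty_iff_eq_empty] at hne
    refine ⟨Classical.arbitrary _, fun x _ hxA => ?_⟩
    have : x ∈ A i n := hxA
    rw [hne] at this
    exact absurd this (Finset.notMem_empty _)

omit [∀ n, NoMaxOrder (C n)] in
lemma compl_singleton_mem (g : Σ n, C n) : {g}ᶜ ∈ tailFilter C := by
  refine ⟨g.1 + 1, fun n hn => ⟨Classical.arbitrary _, fun x _ hx => ?_⟩⟩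
  have : n = g.1 := congrArg Sigma.fst hx
  omega

omit [∀ n, NoMaxOrder (C n)] in
lemma pos_of_compl_not_mem {B : Set (Σ n, C n)} (hB : Bᶜ ∉ tailFilter C) : Pos B := by
  by_contra hcon
  apply hB
  unfold Pos at hcon
  push Not at hcon
  obtain ⟨N, hN⟩ := hcon
  exact ⟨N, fun n hn => hN n hn⟩

/-- The space of a chain family which meets all decreasing sequences of positive sets. -/
theorem exists_space [WellFoundedLT I] [Infinite I] (h : ChainFam A)
    (hcatch : ∀ B : ℕ → Set (Σ n, C n), Antitone B → (∀ k, Pos (B k)) →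
      ∃ i, ∀ k, (graph A i ∩ B k).Nonempty) :
    ∃ (X : Type u) (_ : TopologicalSpace X), CompactSpace X ∧ T2Space X ∧ FrechetUrysohnSpace X ∧
      Scattered X ∧ HerWD X ∧ ¬ Bisequential X ∧ ∃ e : (Σ n, C n) → X, DenseRange e := by
  refine ⟨Sp (graph A), inferInstance, Sp.compact, Sp.t2 (graph_ad h), Sp.frechet (graph_ad h)
    (graph_sep h), Sp.scattered, Sp.herWD (graph_sep h), ?_,
    ⟨Sp.iso, Sp.denseRange_iso (graph_infinite h) inferInstance⟩⟩
  exact Sp.not_bisequential (graph_ad h) (tailFilter C) tailFilter_neBot compl_singleton_mem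
    compl_graph_mem fun B hB hpos => hcatch B hB fun k => pos_of_compl_not_mem (hpos k)

end

end Pool.Agent.R729.WD
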