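import Mathlib

/-!
# MP_88e59f_gt: the definitions
-/

open Set Filter Topology

namespace Pool.Agent.R729.WD

universe u

/-- A space is scattered if every nonempty subset `A` has a point that is isolated in `A`. -/
def Scattered (X : Type u) [TopologicalSpace X] : Prop :=
  ∀ A : Set X, A.Nonempty → ∃ a ∈ A, ∃ U : Set X, IsOpen U ∧ U ∩ A = {a}

/-- Property wD: for every infinite closed discrete `D` there are an infinite `D' ⊆ D` and open
sets `U d ∋ d` (`d ∈ D'`) such that the family `(U d)_{d ∈ D'}` is discrete, i.e. every point has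
a neighbourhood `V` that meets `U d` for at most one `d ∈ D'`. -/
def WD (X : Type u) [TopologicalSpace X] : Prop :=
  ∀ D : Set X, D.Infinite → IsClosed D → DiscreteTopology D →
    ∃ D' : Set X, D' ⊆ D ∧ D'.Infinite ∧ ∃ U : X → Set X,
      (∀ d ∈ D', IsOpen (U d) ∧ d ∈ U d) ∧
      ∀ x : X, ∃ V ∈ 𝓝 x, ∀ d ∈ D', ∀ e ∈ D', (U d ∩ V).Nonempty → (U e ∩ V).Nonempty → d = e

/-- wD holds hereditarily: every subspace has property wD. -/
def HerWD (X : Type u) [TopologicalSpace X] : Prop := ∀ Y : Set X, WD Y

/-- Bisequential: for every point `x` and every ultrafilter `𝒰` converging to `x` there is a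
decreasing sequence of members of `𝒰` that converges to `x`. -/
def Bisequential (X : Type u) [TopologicalSpace X] : Prop :=
  ∀ x : X, ∀ F : Ultrafilter X, (F : Filter X) ≤ 𝓝 x →
    ∃ A : ℕ → Set X, Antitone A ∧ (∀ n, A n ∈ F) ∧ ∀ V ∈ 𝓝 x, ∃ n, A n ⊆ V

/-- A compact Hausdorff scattered space that satisfies wD hereditarily and is not bisequential. -/
structure Counterexample (X : Type u) [TopologicalSpace X] : Prop where
  compact : CompactSpace X
  hausdorff : T2Space X
  scattered : Scattered X
  herWD : HerWD X
  not_bisequential : ¬ Bisequential X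

end Pool.Agent.R729.WD
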