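import Pool.Agent.R729.WD.Rec

/-!
# A separable example in ZFC (a Franklin–Rajagopalan type space)

`W` is a well order with bottom and top, `G : W → Set N` is increasing modulo finite, `G ⊥ = ∅`,
`G ⊤ = univ`.  The points are the isolated points of `N` and the points of `W`; a neighbourhood of
`α ≠ ⊥` contains for some `β < α` the interval `(β, α]` and almost all of `G α \ G β`.
-/

open Set Filter Topology

namespace Pool.Agent.R729.WD

variable {N W : Type} [LinearOrder W] [WellFoundedLT W] [OrderBot W] [OrderTop W]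

/-- The points of the space. -/
inductive FR (G : W → Set N) : Type
  | iso (g : N) : FR G
  | ord (α : W) : FR G

/-- The hypotheses on the tower. -/
structure Tower (G : W → Set N) : Prop where
  mono : ∀ α β, α < β → (G α \ G β).Finite
  bot : G ⊥ = ∅
  top : G ⊤ = univ

namespace FR

variable {G : W → Set N}

/-- the open sets -/
def IsOp (U : Set (FR G)) : Prop :=
  ∀ α, ord α ∈ U → α = ⊥ ∨ ∃ β, β < α ∧ (∀ γ, β < γ → γ ≤ α → ord γ ∈ U) ∧
    {g | g ∈ G α ∧ g ∉ G β ∧ iso g ∉ U}.Finite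

lemma mono_le (hG : Tower G) {α β : W} (h : α ≤ β) : (G α \ G β).Finite := by
  rcases h.lt_or_eq with h | h
  · exact hG.mono α β h
  · rw [h, sdiff_self]
    exact finite_empty

/-- the topology -/
@[instance_reducible] def top (hG : Tower G) : TopologicalSpace (FR G) where
  IsOpen := IsOp
  isOpen_univ := by
    intro α _
    rcases eq_or_lt_of_le (bot_le (a := α)) with h | h
    · exact Or.inl h.symm
    · refine Or.inr ⟨⊥, h, fun _ _ _ => mem_univ _, ?_⟩
      simp
  isOpen_inter := by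
    intro U V hU hV α hα
    rcases hU α hα.1 with h | ⟨β, hβ, h1, h2⟩
    · exact Or.inl h
    rcases hV α hα.2 with h | ⟨β', hβ', h1', h2'⟩
    · exact Or.inl h
    refine Or.inr ⟨max β β', max_lt hβ hβ', fun γ hγ hγα =>
      ⟨h1 γ (lt_of_le_of_lt (le_max_left _ _) hγ) hγα,
        h1' γ (lt_of_le_of_lt (le_max_right _ _) hγ) hγα⟩, ?_⟩
    refine (((h2.union h2').union (mono_le hG (le_max_left β β'))).union
      (mono_le hG (le_max_right β β'))).subset ?_
    rintro g ⟨hg1, hg2, hg3⟩
    by_cases hb : g ∈ G β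
    · exact Or.inl (Or.inr ⟨hb, hg2⟩)
    by_cases hb' : g ∈ G β'
    · exact Or.inr ⟨hb', hg2⟩
    by_cases hgU : iso g ∈ U
    · exact Or.inl (Or.inl (Or.inr ⟨hg1, hb', fun h => hg3 ⟨hgU, h⟩⟩))
    · exact Or.inl (Or.inl (Or.inl ⟨hg1, hb, hgU⟩))
  isOpen_sUnion := by
    rintro S hS α ⟨U, hU, hα⟩
    rcases hS U hU α hα with h | ⟨β, hβ, h1, h2⟩
    · exact Or.inl h
    · refine Or.inr ⟨β, hβ, fun γ hγ hγα => ⟨U, hU, h1 γ hγ hγα⟩, h2.subset ?_⟩
      rintro g ⟨hg1, hg2, hg3⟩
      exact ⟨hg1, hg2, fun h => hg3 ⟨U, hU, h⟩⟩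

/-- the basic clopen sets -/
def K (G : W → Set N) (α : W) : Set (FR G) := {x | (∃ γ, γ ≤ α ∧ x = ord γ) ∨ ∃ g ∈ G α, x = iso g}

lemma iso_mem_K {α : W} {g : N} : (iso g : FR G) ∈ K G α ↔ g ∈ G α := by
  simp [K]

lemma ord_mem_K {α γ : W} : (ord γ : FR G) ∈ K G α ↔ γ ≤ α := by
  simp [K]

section

variable (hG : Tower G)
include hG

lemma isOpen_iso (g : N) : @IsOpen _ (top hG) ({iso g} : Set (FR G)) := by
  intro α hα
  exact absurd hα (by simp)

lemma isOpen_K (α : W) : @IsOpen _ (top hG) (K G α) := by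
  intro γ hγ
  rw [ord_mem_K] at hγ
  rcases eq_or_lt_of_le (bot_le (a := γ)) with h | h
  · exact Or.inl h.symm
  · refine Or.inr ⟨⊥, h, fun γ' _ h' => ord_mem_K.mpr (h'.trans hγ), ?_⟩
    refine (mono_le hG hγ).subset ?_
    rintro g ⟨hg1, _, hg3⟩
    exact ⟨hg1, fun h => hg3 (iso_mem_K.mpr h)⟩

lemma isClosed_K (α : W) : @IsClosed _ (top hG) (K G α) := by
  refine @IsClosed.mk _ (top hG) _ ?_
  intro γ hγ
  have hγ' : α < γ := by
    by_contra hcon
    exact hγ (ord_mem_K.mpr (not_lt.mp hcon))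
  refine Or.inr ⟨α, hγ', fun γ' h' _ h => absurd (ord_mem_K.mp h) (not_le.mpr h'), ?_⟩
  convert Set.finite_empty (α := N)
  ext g
  simp only [mem_ofPred_eq, mem_empty_iff_false, iff_false]
  rintro ⟨_, hg2, hg3⟩
  apply hg2
  by_contra hcon
  exact hg3 fun h => hcon (iso_mem_K.mp h)

lemma isClosed_iso (g : N) : @IsClosed _ (top hG) ({iso g} : Set (FR G)) := by
  refine @IsClosed.mk _ (top hG) _ ?_
  intro γ _
  rcases eq_or_lt_of_le (bot_le (a := γ)) with h | h
  · exact Or.inl h.symm
  · refine Or.inr ⟨⊥, h, fun γ' _ _ h => by simp at h, ?_⟩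
    refine (finite_singleton g).subset ?_
    rintro g' ⟨_, _, h3⟩
    by_contra hcon
    apply h3
    intro h
    apply hcon
    simpa using h

lemma t2 : @T2Space _ (top hG) := by
  let _ := top hG
  refine ⟨?_⟩
  have key : ∀ x y : FR G, x ≠ y → (∃ U : Set (FR G), IsOpen U ∧ IsClosed U ∧ x ∈ U ∧ y ∉ U) ∨
      ∃ U : Set (FR G), IsOpen U ∧ IsClosed U ∧ y ∈ U ∧ x ∉ U := by
    intro x y hxy
    rcases x with g | α
    · exact Or.inl ⟨{iso g}, isOpen_iso hG g, isClosed_iso hG g, rfl, fun h => hxy h.symm⟩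
    · rcases y with g | β
      · exact Or.inr ⟨{iso g}, isOpen_iso hG g, isClosed_iso hG g, rfl, fun h => hxy h⟩
      · have hne : α ≠ β := fun h => hxy (by rw [h])
        rcases lt_or_gt_of_ne hne with h | h
        · exact Or.inl ⟨K G α, isOpen_K hG α, isClosed_K hG α, ord_mem_K.mpr le_rfl,
            fun h' => absurd (ord_mem_K.mp h') (not_le.mpr h)⟩
        · exact Or.inr ⟨K G β, isOpen_K hG β, isClosed_K hG β, ord_mem_K.mpr le_rfl,
            fun h' => absurd (ord_mem_K.mp h') (not_le.mpr h)⟩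
  intro x y hxy
  rcases key x y hxy with ⟨U, h⟩ | ⟨U, h⟩
  · exact ⟨U, Uᶜ, h.1, h.2.1.isOpen_compl, h.2.2.1, h.2.2.2, disjoint_compl_right⟩
  · exact ⟨Uᶜ, U, h.2.1.isOpen_compl, h.1, h.2.2.2, h.2.2.1, disjoint_compl_left⟩

lemma compact : @CompactSpace _ (top hG) := by
  let _ := top hG
  refine ⟨isCompact_iff_ultrafilter_le_nhds.mpr ?_⟩
  intro F _
  by_cases h : ∃ x : FR G, {x} ∈ F
  · obtain ⟨x, hx⟩ := h
    refine ⟨x, mem_univ x, ?_⟩
    intro V hV
    exact Filter.mem_of_superset hx (singleton_subset_iff.mpr (mem_of_mem_nhds hV))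
  · have hcof : ∀ x : FR G, {x}ᶜ ∈ F := by
      intro x
      rw [Ultrafilter.compl_mem_iff_notMem]
      exact fun hx => h ⟨x, hx⟩
    have hne : {α : W | K G α ∈ F}.Nonempty := by
      refine ⟨⊤, ?_⟩
      have : K G ⊤ = univ := by
        ext x
        simp only [mem_univ, iff_true]
        rcases x with g | α
        · exact iso_mem_K.mpr (by rw [hG.top]; trivial)
        · exact ord_mem_K.mpr le_top
      show K G ⊤ ∈ F
      rw [this]
      exact Filter.univ_mem
    set α := WellFounded.min (wellFounded_lt (α := W)) _ hne with hα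
    have hαF : K G α ∈ F := WellFounded.min_mem (wellFounded_lt (α := W)) _ hne
    have hlt : ∀ β, β < α → (K G β)ᶜ ∈ F := by
      intro β hβ
      rw [Ultrafilter.compl_mem_iff_notMem]
      intro hβF
      exact WellFounded.not_lt_min (wellFounded_lt (α := W)) (s := {α : W | K G α ∈ F}) hβF hβ
    refine ⟨ord α, mem_univ _, ?_⟩
    intro V hV
    obtain ⟨U, hUV, hU, hi⟩ := mem_nhds_iff.mp hV
    rcases hU α hi with hbot | ⟨β, hβ, h1, h2⟩
    · exfalso
      have : K G α = {ord ⊥} := by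
        ext x
        rcases x with g | γ
        · rw [iso_mem_K, hbot, hG.bot]
          simp
        · rw [ord_mem_K, hbot]
          simp
      rw [this] at hαF
      exact h ⟨_, hαF⟩
    · have h3 : (iso '' {g | g ∈ G α ∧ g ∉ G β ∧ (iso g : FR G) ∉ U})ᶜ ∈ F := by
        have : (⋃ x ∈ (iso '' {g | g ∈ G α ∧ g ∉ G β ∧ (iso g : FR G) ∉ U}),
            ({x} : Set (FR G)))ᶜ ∈ F := by
          rw [compl_iUnion₂]
          exact (Filter.biInter_mem (h2.image _)).mpr fun x _ => hcof x
        rwa [Set.biUnion_of_singleton] at this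
      refine Filter.mem_of_superset (Filter.inter_mem (Filter.inter_mem hαF (hlt β hβ)) h3) ?_
      rintro x ⟨⟨hx1, hx2⟩, hx3⟩
      apply hUV
      rcases x with g | γ
      · by_contra hn
        exact hx3 ⟨g, ⟨iso_mem_K.mp hx1, fun h => hx2 (iso_mem_K.mpr h), hn⟩, rfl⟩
      · refine h1 γ ?_ (ord_mem_K.mp hx1)
        by_contra hcon
        exact hx2 (ord_mem_K.mpr (not_lt.mp hcon))

lemma scattered : @Scattered _ (top hG) := by
  let _ := top hG
  intro S hS
  by_cases h1 : ∃ g, iso g ∈ S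
  · obtain ⟨g, hg⟩ := h1
    refine ⟨iso g, hg, {iso g}, isOpen_iso hG g, ?_⟩
    ext x
    constructor
    · exact fun h => h.1
    · rintro rfl
      exact ⟨rfl, hg⟩
  · have hne : {α : W | ord α ∈ S}.Nonempty := by
      obtain ⟨x, hx⟩ := hS
      rcases x with g | α
      · exact absurd ⟨g, hx⟩ h1
      · exact ⟨α, hx⟩
    set m := WellFounded.min (wellFounded_lt (α := W)) _ hne with hm
    refine ⟨ord m, WellFounded.min_mem (wellFounded_lt (α := W)) _ hne, K G m,
      isOpen_K hG m, ?_⟩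
    ext x
    constructor
    · rintro ⟨hx1, hx2⟩
      rcases x with g | γ
      · exact absurd ⟨g, hx2⟩ h1
      · have h2 := ord_mem_K.mp hx1
        have h3 := WellFounded.not_lt_min (wellFounded_lt (α := W)) (s := {α : W | ord α ∈ S}) hx2
        rw [mem_singleton_iff, le_antisymm h2 (not_lt.mp h3)]
    · intro hx
      rw [mem_singleton_iff] at hx
      rw [hx]
      exact ⟨ord_mem_K.mpr le_rfl, WellFounded.min_mem (wellFounded_lt (α := W)) _ hne⟩

lemma not_bisequential (hlim : ∀ α : W, α < ⊤ → ∃ β, α < β ∧ β < ⊤) (hne : ∃ α : W, α < ⊤)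
    (hub : ∀ a : ℕ → W, (∀ n, a n < ⊤) → ∃ γ : W, γ < ⊤ ∧ ∀ n, a n ≤ γ) :
    ¬ @Bisequential _ (top hG) := by
  let _ := top hG
  intro hB
  have : Nonempty {α : W // α < ⊤} := ⟨⟨hne.choose, hne.choose_spec⟩⟩
  set U₀ : Ultrafilter {α : W // α < ⊤} := Ultrafilter.of atTop with hU₀
  have hle : (U₀ : Filter {α : W // α < ⊤}) ≤ atTop := Ultrafilter.of_le _
  set F : Ultrafilter (FR G) := U₀.map fun α => ord α.1 with hF
  have hFle : (F : Filter (FR G)) ≤ 𝓝 (ord ⊤) := by
    intro V hV
    obtain ⟨U, hUV, hU, hi⟩ := mem_nhds_iff.mp hV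
    rcases hU ⊤ hi with hbot | ⟨β, hβ, h1, _⟩
    · exfalso
      obtain ⟨α, hα⟩ := hne
      rw [hbot] at hα
      exact not_lt_bot hα
    · obtain ⟨β', hβ1, hβ2⟩ := hlim β hβ
      show (fun α : {α : W // α < ⊤} => (ord α.1 : FR G)) ⁻¹' V ∈ U₀
      refine Filter.mem_of_superset (hle (Ici_mem_atTop (⟨β', hβ2⟩ : {α : W // α < ⊤}))) ?_
      intro γ hγ
      exact hUV (h1 γ.1 (lt_of_lt_of_le hβ1 hγ) le_top)
  obtain ⟨A, _, hAF, hA⟩ := hB (ord ⊤) F hFle
  have hex : ∀ n, ∃ a : W, a < ⊤ ∧ ord a ∈ A n := by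
    intro n
    obtain ⟨a, ha⟩ := Ultrafilter.nonempty_of_mem (show
      ((fun α : {α : W // α < ⊤} => (ord α.1 : FR G)) ⁻¹' A n) ∈ U₀ from hAF n)
    exact ⟨a.1, a.2, ha⟩
  choose a ha haA using hex
  obtain ⟨γ, hγ, hγa⟩ := hub a ha
  obtain ⟨n, hn⟩ := hA (K G γ)ᶜ ((isClosed_K hG γ).isOpen_compl.mem_nhds
    fun h => absurd (ord_mem_K.mp h) (not_le.mpr hγ))
  exact hn (haA n) (ord_mem_K.mpr (hγa n))

lemma separable [Countable N] (hinf : ∀ α β, α < β → (G β \ G α).Infinite) :
    @TopologicalSpace.SeparableSpace _ (top hG) := by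
  let _ := top hG
  refine ⟨⟨range iso ∪ {ord ⊥}, (countable_range _).union (countable_singleton _), ?_⟩⟩
  intro x
  rcases x with g | α
  · exact subset_closure (Or.inl ⟨g, rfl⟩)
  · rcases eq_or_lt_of_le (bot_le (a := α)) with h | h
    · rw [← h]
      exact subset_closure (Or.inr rfl)
    · rw [mem_closure_iff]
      intro U hU hα
      rcases hU α hα with hbot | ⟨β, hβ, _, h2⟩
      · exact absurd hbot h.ne'
      · by_contra hcon
        apply hinf β α hβ
        refine h2.subset ?_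
        rintro g ⟨hg1, hg2⟩
        exact ⟨hg1, hg2, fun hgU => hcon ⟨iso g, hgU, Or.inl ⟨g, rfl⟩⟩⟩

lemma herWD : @HerWD _ (top hG) := by
  classical
  let _ := top hG
  have := t2 hG
  intro Y D hDinf hDcl hDdis
  have hnhd := Sp.exists_nhd_of_closed_discrete hDcl hDdis
  by_cases h1 : {y : Y | y ∈ D ∧ ∃ g, y.1 = iso g}.Infinite
  · -- infinitely many isolated points
    refine ⟨{y : Y | y ∈ D ∧ ∃ g, y.1 = iso g}, fun y hy => hy.1, h1, fun y => {y}, ?_, ?_⟩
    · rintro y ⟨_, g, hg⟩
      refine ⟨?_, rfl⟩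
      have : ({y} : Set Y) = Subtype.val ⁻¹' ({iso g} : Set (FR G)) := by
        ext z
        simp only [mem_singleton_iff, mem_preimage]
        rw [← hg, Subtype.ext_iff]
      show IsOpen ({y} : Set Y)
      rw [this]
      exact (isOpen_iso hG g).preimage continuous_subtype_val
    · intro x
      obtain ⟨V, hV, hxV, hVD⟩ := hnhd x
      refine ⟨V, hV.mem_nhds hxV, ?_⟩
      rintro d hd e he ⟨z, hz, hzV⟩ ⟨w, hw, hwV⟩
      rw [mem_singleton_iff] at hz hw
      subst hz hw
      rw [hVD _ hd.1 hzV, hVD _ he.1 hwV]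
  · rw [Set.not_infinite] at h1
    have h2 : {α : W | ∃ h : ord α ∈ Y, (⟨ord α, h⟩ : Y) ∈ D}.Infinite := by
      intro hfin
      apply hDinf
      have h3 : (Subtype.val '' D : Set (FR G)).Finite := by
        have h4 : (Subtype.val '' {y : Y | y ∈ D ∧ ∃ g, y.1 = iso g} : Set (FR G)).Finite :=
          h1.image _
        refine (h4.union (hfin.image ord)).subset ?_
        rintro _ ⟨y, hy, rfl⟩
        obtain ⟨y, hyY⟩ := y
        rcases y with g | α
        · exact Or.inl ⟨⟨iso g, hyY⟩, ⟨hy, g, rfl⟩, rfl⟩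
        · exact Or.inr ⟨α, ⟨hyY, hy⟩, rfl⟩
      exact Set.Finite.of_finite_image h3 Subtype.val_injective.injOn
    obtain ⟨d, hd, hdD⟩ := exists_seq' _ h2
    choose hY hD using hdD
    set e : ℕ → Y := fun n => ⟨ord (d n), hY n⟩ with he
    have heinj : Function.Injective e := by
      intro m n hmn
      apply hd.injective
      have := congrArg Subtype.val hmn
      simpa [he] using this
    -- the least upper bound
    have hub : (upperBounds (range d)).Nonempty := ⟨⊤, fun _ _ => le_top⟩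
    set δ := WellFounded.min (wellFounded_lt (α := W)) _ hub with hδ
    have hδub : δ ∈ upperBounds (range d) := WellFounded.min_mem _ _ hub
    have hδmin : ∀ β, β < δ → ∃ n, β < d n := by
      intro β hβ
      by_contra hcon
      push Not at hcon
      refine WellFounded.not_lt_min (wellFounded_lt (α := W)) (s := upperBounds (range d)) ?_ hβ
      rintro _ ⟨n, rfl⟩
      exact hcon n
    have hdlt : ∀ n, d n < δ := fun n =>
      lt_of_lt_of_le (hd (Nat.lt_succ_self n)) (hδub ⟨n + 1, rfl⟩)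
    have hδY : ord δ ∉ Y := by
      intro hδY
      obtain ⟨V, hV, hxV, hVD⟩ := hnhd ⟨ord δ, hδY⟩
      obtain ⟨U, hU, rfl⟩ := isOpen_induced_iff.mp hV
      rcases hU δ hxV with hbot | ⟨β, hβ, hβ1, _⟩
      · exact absurd (hdlt 0) (by rw [hbot]; exact not_lt_bot)
      · obtain ⟨n, hn⟩ := hδmin β hβ
        have h5 := hVD _ (hD n) (hβ1 (d n) hn (hdlt n).le)
        have h6 := congrArg Subtype.val h5
        simp only [FR.ord.injEq] at h6
        exact (hdlt n).ne h6
    -- the open sets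
    set E : ℕ → Set N := fun n => G (d n) \ G δ with hE
    have hEfin : ∀ n, (E n).Finite := fun n => hG.mono _ _ (hdlt n)
    set V : ℕ → Set (FR G) := fun n => K G (d n) ∩ ⋂ m ∈ Finset.range n, (K G (d m))ᶜ with hV
    have hVopen : ∀ n, IsOpen (V n) := fun n =>
      (isOpen_K hG _).inter (isOpen_biInter_finset fun m _ => (isClosed_K hG _).isOpen_compl)
    set O : ℕ → Set (FR G) := fun n => V n ∩ (iso '' E n)ᶜ with hO
    have hOopen : ∀ n, IsOpen (O n) := fun n =>
      (hVopen n).inter ((hEfin n).image _).isClosed.isOpen_compl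
    have hmemV : ∀ n x, x ∈ V n ↔ x ∈ K G (d n) ∧ ∀ m < n, x ∉ K G (d m) := by
      intro n x
      simp [hV]
    have hVdisj : ∀ m n x, x ∈ V m → x ∈ V n → m = n := by
      intro m n x hm hn
      rw [hmemV] at hm hn
      rcases lt_trichotomy m n with h | h | h
      · exact absurd hm.1 (hn.2 m h)
      · exact h
      · exact absurd hn.1 (hm.2 n h)
    have hdV : ∀ n, ord (d n) ∈ V n := by
      intro n
      rw [hmemV]
      exact ⟨ord_mem_K.mpr le_rfl, fun m hm h => absurd (ord_mem_K.mp h) (not_le.mpr (hd hm))⟩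
    set inv : Y → ℕ := Function.invFun e with hinv
    have hinve : ∀ k, inv (e k) = k := fun k => Function.leftInverse_invFun heinj k
    refine ⟨range e, ?_, infinite_range_of_injective heinj,
      fun y => Subtype.val ⁻¹' (O (inv y)), ?_, ?_⟩
    · rintro _ ⟨k, rfl⟩
      exact hD k
    · rintro _ ⟨k, rfl⟩
      dsimp only
      rw [hinve]
      refine ⟨(hOopen k).preimage continuous_subtype_val, hdV k, ?_⟩
      rintro ⟨g, _, hg⟩
      simp at hg
    · -- discreteness of the family; it suffices to find `n` and a neighbourhood that meets only `O n`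
      have main : ∀ (Q : Set (FR G)) (n : ℕ), (∀ m x, x ∈ O m → x ∈ Q → m = n) →
          ∀ p ∈ range e, ∀ q ∈ range e,
            ((Subtype.val ⁻¹' (O (inv p)) : Set Y) ∩ Subtype.val ⁻¹' Q).Nonempty →
            ((Subtype.val ⁻¹' (O (inv q)) : Set Y) ∩ Subtype.val ⁻¹' Q).Nonempty → p = q := by
        rintro Q n hQ _ ⟨k, rfl⟩ _ ⟨l, rfl⟩ ⟨x, hx1, hx2⟩ ⟨y, hy1, hy2⟩
        rw [hinve] at hx1 hy1
        rw [hQ k x.1 hx1 hx2, hQ l y.1 hy1 hy2]
      rintro ⟨x, hx⟩
      rcases x with g | γ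
      · refine ⟨Subtype.val ⁻¹' ({iso g} : Set (FR G)),
          ((isOpen_iso hG g).preimage continuous_subtype_val).mem_nhds rfl, ?_⟩
        by_cases hex : ∃ n, (iso g : FR G) ∈ V n
        · obtain ⟨n, hn⟩ := hex
          refine main _ n ?_
          intro m x hm hxg
          rw [mem_singleton_iff] at hxg
          subst hxg
          exact hVdisj m n _ hm.1 hn
        · refine main _ 0 ?_
          intro m x hm hxg
          rw [mem_singleton_iff] at hxg
          subst hxg
          exact absurd ⟨m, hm.1⟩ hex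
      · have hne : γ ≠ δ := fun h => hδY (h ▸ hx)
        rcases lt_or_gt_of_ne hne with h | h
        · have hex : ∃ n, γ ≤ d n := by
            obtain ⟨n, hn⟩ := hδmin γ h
            exact ⟨n, hn.le⟩
          refine ⟨Subtype.val ⁻¹' (V (Nat.find hex)),
            ((hVopen _).preimage continuous_subtype_val).mem_nhds ?_, ?_⟩
          · show ord γ ∈ V (Nat.find hex)
            rw [hmemV]
            refine ⟨ord_mem_K.mpr (Nat.find_spec hex), fun m hm h' => ?_⟩
            exact Nat.find_min hex hm (ord_mem_K.mp h')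
          · exact main _ (Nat.find hex) fun m x hm hx' => hVdisj m _ x hm.1 hx'
        · refine ⟨Subtype.val ⁻¹' ((K G δ)ᶜ),
            ((isClosed_K hG δ).isOpen_compl.preimage continuous_subtype_val).mem_nhds ?_, ?_⟩
          · exact fun h' => absurd (ord_mem_K.mp h') (not_le.mpr h)
          · refine main _ 0 ?_
            intro m x hm hx'
            exfalso
            apply hx'
            have h7 := ((hmemV m x).mp hm.1).1
            rcases x with g | β
            · rw [iso_mem_K] at h7 ⊢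
              by_contra hcon
              exact hm.2 ⟨g, ⟨h7, hcon⟩, rfl⟩
            · rw [ord_mem_K] at h7 ⊢
              exact h7.trans (hdlt m).le

end

end FR

/-- A strictly increasing (modulo finite) chain of functions of length `ω₁`. -/
lemma exists_chain : ∃ (I : Type) (_ : LinearOrder I) (_ : WellFoundedLT I) (f : I → ℕ → ℕ),
    (∀ i : I, (Iic i).Countable) ∧ ¬ (univ : Set I).Countable ∧
    ∀ i j, i < j → ∃ N, ∀ n, N ≤ n → f i n < f j n := by
  classical
  refine ⟨(Cardinal.aleph 1 : Cardinal.{0}).ord.ToType, inferInstance, inferInstance, ?_⟩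
  set W : Type := (Cardinal.aleph 1 : Cardinal.{0}).ord.ToType with hW
  have hcount : ∀ i : W, (Iic i).Countable := by
    intro i
    have h1 : Cardinal.mk (Iio i) < Cardinal.aleph 1 := Cardinal.mk_Iio_toType_ord_lt i
    have h2 : (Iio i).Countable := by
      rw [← Cardinal.le_aleph0_iff_set_countable]
      exact Cardinal.lt_aleph_one_iff.mp h1
    have h3 : Iic i = insert i (Iio i) := by
      ext x
      simp [le_iff_eq_or_lt]
    rw [h3]
    exact h2.insert i
  have hunc : ¬ (univ : Set W).Countable := by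
    intro h
    rw [← Cardinal.le_aleph0_iff_set_countable, Cardinal.mk_univ, hW, Cardinal.mk_ord_toType,
      ← Cardinal.lt_aleph_one_iff] at h
    exact lt_irrefl _ h
  have hb : BoundedModFinite (fun _ => ℕ) (Cardinal.aleph 1 : Cardinal.{0}) := by
    intro J f hJ
    have hJc : Countable J := by
      rw [← Cardinal.mk_le_aleph0_iff]
      exact Cardinal.lt_aleph_one_iff.mp hJ
    obtain ⟨e, he⟩ := Countable.exists_injective_nat J
    have hbd : ∀ n, ∃ c : ℕ, ∀ j, e j ≤ n → f j n ≤ c := by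
      intro n
      have hfin : {j | e j ≤ n}.Finite :=
        Set.Finite.preimage he.injOn (Set.finite_Iic n)
      obtain ⟨c, hc⟩ := (hfin.image fun j => f j n).bddAbove
      exact ⟨c, fun j hj => hc ⟨j, hj, rfl⟩⟩
    choose h hh using hbd
    exact ⟨h, fun j => ⟨e j, fun n hn => hh n j hn⟩⟩
  have hI : ∀ i : W, Cardinal.mk {j // j < i} < Cardinal.aleph 1 :=
    fun i => Cardinal.mk_Iio_toType_ord_lt i
  have hfam := recFam_chain (C := fun _ => ℕ) hb hI (T := Unit) (fun _ h n => {h n + 1})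
    (fun _ h n => ⟨_, Finset.mem_singleton_self _⟩)
    (fun _ h n x hx => by
      rw [Finset.mem_singleton] at hx
      omega) (fun _ => ())
  set A := recFam (C := fun _ => ℕ) (I := W) (fun (_ : Unit) h n => {h n + 1}) (fun _ => ())
    with hA
  choose f hf using fun i n => hfam.ne i n
  refine ⟨f, hcount, hunc, fun i j hij => ?_⟩
  obtain ⟨N, hN⟩ := hfam.chain i j hij
  exact ⟨N, fun n hn => hN n hn _ (hf i n) _ (hf j n)⟩

/-- the tower -/
def tow {I : Type} (f : I → ℕ → ℕ) : WithBot (WithTop I) → Set (ℕ × ℕ)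
  | ⊥ => ∅
  | ((⊤ : WithTop I) : WithBot (WithTop I)) => univ
  | (((i : I) : WithTop I) : WithBot (WithTop I)) => {g | g.2 ≤ f i g.1}

lemma cases3 {I : Type} (α : WithBot (WithTop I)) :
    α = ⊥ ∨ α = ((⊤ : WithTop I) : WithBot (WithTop I)) ∨
      ∃ i : I, α = ((i : WithTop I) : WithBot (WithTop I)) := by
  induction α using WithBot.recBotCoe with
  | bot => exact Or.inl rfl
  | coe a =>
    induction a using WithTop.recTopCoe with
    | top => exact Or.inr (Or.inl rfl)
    | coe i => exact Or.inr (Or.inr ⟨i, rfl⟩)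

lemma tow_mono {I : Type} [LinearOrder I] {f : I → ℕ → ℕ}
    (hf : ∀ i j, i < j → ∃ N, ∀ n, N ≤ n → f i n < f j n) (α β : WithBot (WithTop I)) (h : α < β) :
    (tow f α \ tow f β).Finite := by
  rcases cases3 α with rfl | rfl | ⟨i, rfl⟩
  · have : tow f (⊥ : WithBot (WithTop I)) = ∅ := rfl
    rw [this, empty_sdiff]
    exact finite_empty
  · exfalso
    rcases cases3 β with rfl | rfl | ⟨j, rfl⟩
    · exact not_lt_bot h
    · exact lt_irrefl _ h
    · rw [WithBot.coe_lt_coe] at h
      exact not_top_lt h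
  · rcases cases3 β with rfl | rfl | ⟨j, rfl⟩
    · exact absurd h not_lt_bot
    · have : tow f (((⊤ : WithTop I) : WithBot (WithTop I))) = univ := rfl
      rw [this, sdiff_univ]
      exact finite_empty
    · rw [WithBot.coe_lt_coe, WithTop.coe_lt_coe] at h
      obtain ⟨N, hN⟩ := hf i j h
      have hfin : (⋃ n ∈ Finset.range N, ({n} ×ˢ Iic (f i n) : Set (ℕ × ℕ))).Finite :=
        Set.Finite.biUnion (Finset.finite_toSet _) fun n _ =>
          (finite_singleton n).prod (Set.finite_Iic _)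
      refine hfin.subset ?_
      rintro ⟨n, m⟩ ⟨h1, h2⟩
      have h1' : m ≤ f i n := h1
      have h2' : f j n < m := not_le.mp h2
      have hn : n < N := by
        by_contra hcon
        have := hN n (not_lt.mp hcon)
        omega
      exact mem_biUnion (Finset.mem_coe.mpr (Finset.mem_range.mpr hn)) ⟨rfl, h1'⟩

lemma tow_inf {I : Type} [LinearOrder I] {f : I → ℕ → ℕ}
    (hf : ∀ i j, i < j → ∃ N, ∀ n, N ≤ n → f i n < f j n) (α β : WithBot (WithTop I)) (h : α < β) :
    (tow f β \ tow f α).Infinite := by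
  have key : ∃ (N : ℕ) (p : ℕ → ℕ), ∀ n, N ≤ n → (n, p n) ∈ tow f β \ tow f α := by
    rcases cases3 β with rfl | rfl | ⟨j, rfl⟩
    · exact absurd h not_lt_bot
    · rcases cases3 α with rfl | rfl | ⟨i, rfl⟩
      · exact ⟨0, fun _ => 0, fun n _ => ⟨trivial, fun h => h⟩⟩
      · exact absurd h (lt_irrefl _)
      · refine ⟨0, fun n => f i n + 1, fun n _ => ⟨trivial, fun h => ?_⟩⟩
        have : f i n + 1 ≤ f i n := h
        omega
    · rcases cases3 α with rfl | rfl | ⟨i, rfl⟩
      · exact ⟨0, fun _ => 0, fun n _ => ⟨Nat.zero_le _, fun h => h⟩⟩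
      · rw [WithBot.coe_lt_coe] at h
        exact absurd h not_top_lt
      · rw [WithBot.coe_lt_coe, WithTop.coe_lt_coe] at h
        obtain ⟨N, hN⟩ := hf i j h
        refine ⟨N, fun n => f j n, fun n hn => ⟨show f j n ≤ f j n from le_rfl, fun h => ?_⟩⟩
        have h1 : f j n ≤ f i n := h
        have h2 := hN n hn
        omega
  obtain ⟨N, p, hp⟩ := key
  refine Set.infinite_of_injective_forall_mem (f := fun n => (n + N, p (n + N))) ?_
    (fun n => hp (n + N) (Nat.le_add_left _ _))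
  intro m n hmn
  have := congrArg Prod.fst hmn
  simpa using this

/-- **A separable example in ZFC.** -/
theorem separable_example :
    ∃ (X : Type) (_ : TopologicalSpace X), CompactSpace X ∧ T2Space X ∧
      TopologicalSpace.SeparableSpace X ∧ Scattered X ∧ HerWD X ∧ ¬ Bisequential X := by
  obtain ⟨I, _, _, f, hcount, hunc, hf⟩ := exists_chain
  have hG : Tower (tow f) := ⟨tow_mono hf, rfl, rfl⟩
  have hIne : Nonempty I := by
    by_contra hcon
    rw [not_nonempty_iff] at hcon
    exact hunc (Set.to_countable _)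
  have hlimI : ∀ w : I, ∃ b : I, w < b := by
    intro w
    by_contra hcon
    push Not at hcon
    apply hunc
    exact (hcount w).mono fun x _ => hcon x
  have hubI : ∀ w : ℕ → I, ∃ γ : I, ∀ n, w n ≤ γ := by
    intro w
    by_contra hcon
    push Not at hcon
    apply hunc
    refine (countable_iUnion fun n => hcount (w n)).mono ?_
    intro x _
    obtain ⟨n, hn⟩ := hcon x
    exact mem_iUnion.mpr ⟨n, hn.le⟩
  have htop : (⊤ : WithBot (WithTop I)) = ((⊤ : WithTop I) : WithBot (WithTop I)) := rfl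
  have hlt : ∀ i : I, ((i : WithTop I) : WithBot (WithTop I)) < ⊤ := by
    intro i
    rw [htop, WithBot.coe_lt_coe]
    exact WithTop.coe_lt_top i
  refine ⟨FR (tow f), FR.top hG, FR.compact hG, FR.t2 hG, FR.separable hG (tow_inf hf),
    FR.scattered hG, FR.herWD hG, FR.not_bisequential hG ?_ ?_ ?_⟩
  · intro α hα
    rcases cases3 α with rfl | rfl | ⟨i, rfl⟩
    · exact ⟨_, WithBot.bot_lt_coe _, hlt hIne.some⟩
    · exact absurd hα (lt_irrefl _)
    · obtain ⟨b, hb⟩ := hlimI i
      exact ⟨_, WithBot.coe_lt_coe.mpr (WithTop.coe_lt_coe.mpr hb), hlt b⟩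
  · exact ⟨_, hlt hIne.some⟩
  · intro a ha
    have hw : ∀ n, ∃ w : I, a n ≤ ((w : WithTop I) : WithBot (WithTop I)) := by
      intro n
      rcases cases3 (a n) with h | h | ⟨i, h⟩
      · exact ⟨hIne.some, by rw [h]; exact bot_le⟩
      · exact absurd (ha n) (by rw [h, htop]; exact lt_irrefl _)
      · exact ⟨i, h.le⟩
    choose w hw using hw
    obtain ⟨γ, hγ⟩ := hubI w
    exact ⟨_, hlt γ, fun n => (hw n).trans (WithBot.coe_le_coe.mpr (WithTop.coe_le_coe.mpr (hγ n)))⟩

end Pool.Agent.R729.WD
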