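import Pool.Agent.R729.WD.Rec

/-!
# The two instances: `𝔟 = 𝔡`, and `2 ^ μ = μ⁺` for a singular `μ` of countable cofinality
-/

open Set Filter Topology

namespace Pool.Agent.R729.WD

/-- `𝔟 = 𝔡`: there is a cardinal `κ` such that every family of fewer than `κ` functions `ℕ → ℕ` is
bounded modulo finite, and there is a family of at most `κ` functions that dominates all functions
modulo finite. -/
def BoundingEqDominating : Prop :=
  ∃ κ : Cardinal.{0},
    (∀ S : Set (ℕ → ℕ), Cardinal.mk S < κ → ∃ g : ℕ → ℕ, ∀ f ∈ S, ∃ N, ∀ n, N ≤ n → f n ≤ g n) ∧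
    ∃ D : Set (ℕ → ℕ), Cardinal.mk D ≤ κ ∧ ∀ g : ℕ → ℕ, ∃ f ∈ D, ∃ N, ∀ n, N ≤ n → g n ≤ f n

/-- positive sets in infinitely many columns, chosen along an increasing sequence of columns -/
lemma exists_columns {C : ℕ → Type} [∀ n, LinearOrder (C n)] {B : ℕ → Set (Σ n, C n)}
    (hpos : ∀ k, Pos (B k)) : ∃ φ : ℕ → ℕ, StrictMono φ ∧
      ∀ k, ∀ c : C (φ k), ∃ x, c ≤ x ∧ (⟨φ k, x⟩ : Σ n, C n) ∈ B k := by
  choose ν hν1 hν2 using hpos
  let φ : ℕ → ℕ := fun k => Nat.rec (ν 0 0) (fun k r => ν (k + 1) (r + 1)) k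
  have hφ0 : φ 0 = ν 0 0 := rfl
  have hφs : ∀ k, φ (k + 1) = ν (k + 1) (φ k + 1) := fun k => rfl
  refine ⟨φ, strictMono_nat_of_lt_succ fun k => ?_, fun k => ?_⟩
  · rw [hφs]
    exact hν1 (k + 1) (φ k + 1)
  · cases k with
    | zero => exact hν2 0 0
    | succ k =>
      have := hν2 (k + 1) (φ k + 1)
      rw [← hφs] at this
      exact this

theorem space_of_bd (h : BoundingEqDominating) :
    ∃ (X : Type) (_ : TopologicalSpace X), CompactSpace X ∧ T2Space X ∧ FrechetUrysohnSpace X ∧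
      Scattered X ∧ HerWD X ∧ ¬ Bisequential X ∧ TopologicalSpace.SeparableSpace X := by
  classical
  obtain ⟨κ, hb, D, hD, hdom⟩ := h
  have hκ : Cardinal.aleph0 ≤ κ := by
    by_contra hcon
    have h1 : Cardinal.mk D < Cardinal.aleph0 := lt_of_le_of_lt hD (not_le.mp hcon)
    have hfin : D.Finite := Cardinal.lt_aleph0_iff_set_finite.mp h1
    obtain ⟨f, hf, N, hN⟩ := hdom (fun n => (∑ f ∈ hfin.toFinset, f n) + 1)
    have h2 := hN N le_rfl
    have h3 : f N ≤ ∑ f ∈ hfin.toFinset, f N :=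
      Finset.single_le_sum (f := fun f : ℕ → ℕ => f N) (fun _ _ => Nat.zero_le _)
        (hfin.mem_toFinset.mpr hf)
    omega
  have hne : Nonempty D := by
    obtain ⟨f, hf, _⟩ := hdom (fun _ => 0)
    exact ⟨⟨f, hf⟩⟩
  have hbb : BoundedModFinite (fun _ => ℕ) κ := by
    intro J f hJ
    obtain ⟨g, hg⟩ := hb (range f) (lt_of_le_of_lt Cardinal.mk_range_le hJ)
    exact ⟨g, fun j => hg (f j) ⟨j, rfl⟩⟩
  obtain ⟨X, tX, h1, h2, h3, h4, h5, h6, e, he⟩ := exists_space_of_tests (C := fun _ => ℕ) κ hκ hbb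
    D hD (fun t h n => Finset.Icc (h n + 1) (max (h n + 1) (t.1 (max n (h n + 1)))))
    (fun t h n => ⟨h n + 1, by simp⟩)
    (fun t h n x hx => by
      rw [Finset.mem_Icc] at hx
      exact hx.1)
    (by
      intro B hB hpos
      obtain ⟨φ, hφ, hφB⟩ := exists_columns hpos
      choose e he1 he2 using hφB
      obtain ⟨d, hd, N, hN⟩ := hdom (fun m => (Finset.range (m + 1)).sup fun k =>
        (Finset.range (m + 1)).sup fun c => e k c)
      refine ⟨⟨d, hd⟩, fun h k => ?_⟩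
      set k' := max k N with hk'
      set c := h (φ k') + 1 with hc
      set m := max (φ k') c with hm
      have hk'φ : k' ≤ φ k' := hφ.id_le k'
      have hmN : N ≤ m := (le_max_right k N).trans (hk'φ.trans (le_max_left _ _))
      have h7 : e k' c ≤ d m := by
        refine le_trans ?_ (hN m hmN)
        have h8 : k' ∈ Finset.range (m + 1) :=
          Finset.mem_range.mpr (Nat.lt_succ_of_le (hk'φ.trans (le_max_left _ _)))
        have h9 : c ∈ Finset.range (m + 1) :=
          Finset.mem_range.mpr (Nat.lt_succ_of_le (le_max_right _ _))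
        exact le_trans (Finset.le_sup (f := fun c => e k' c) h9)
          (Finset.le_sup (f := fun k => (Finset.range (m + 1)).sup fun c => e k c) h8)
      refine ⟨φ k', e k' c, ?_, ?_⟩
      · rw [Finset.mem_Icc]
        exact ⟨he1 k' c, h7.trans (le_max_right _ _)⟩
      · exact hB (le_max_left k N) (he2 k' c))
  exact ⟨X, tX, h1, h2, h3, h4, h5, h6, ⟨⟨range e, countable_range e, he⟩⟩⟩

/-- The columns for a cardinal of countable cofinality. -/
lemma exists_rank (μ : Cardinal.{0}) (hμ : Cardinal.aleph0 ≤ μ) (hcof : μ.ord.cof = Cardinal.aleph0) :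
    ∃ (M : Type) (r : M → ℕ) (ν : ℕ → Cardinal.{0}), Cardinal.mk M = μ ∧
      (∀ n, ν n < μ) ∧ ∀ n, Cardinal.mk {x : M | r x ≤ n} ≤ ν n := by
  classical
  set M : Type := μ.ord.ToType with hM
  have hmk : Cardinal.mk M = μ := Cardinal.mk_ord_toType μ
  obtain ⟨S, hS, hSc⟩ := Order.exists_cof_eq M
  have hcofM : Order.cof M = Cardinal.aleph0 := (Ordinal.cof_toType μ.ord).trans hcof
  rw [hcofM] at hSc
  have hScount : S.Countable := by
    rw [← Cardinal.le_aleph0_iff_set_countable]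
    exact hSc.le
  have hSne : S.Nonempty := by
    by_contra hcon
    rw [Set.not_nonempty_iff_eq_empty] at hcon
    rw [hcon] at hSc
    simp at hSc
    exact Cardinal.aleph0_ne_zero hSc.symm
  obtain ⟨s, hs⟩ := hScount.exists_eq_range hSne
  have hex : ∀ x : M, ∃ k, x ≤ s k := by
    intro x
    obtain ⟨y, hy, hxy⟩ := hS x
    rw [hs] at hy
    obtain ⟨k, rfl⟩ := hy
    exact ⟨k, hxy⟩
  set m : ℕ → M := fun n => (Finset.range (n + 1)).sup' ⟨0, by simp⟩ s with hm
  refine ⟨M, fun x => Nat.find (hex x), fun n => Cardinal.mk (Iic (m n)), hmk, fun n => ?_,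
    fun n => ?_⟩
  · have h1 : Cardinal.mk (Iio (m n)) < μ := Cardinal.mk_Iio_toType_ord_lt (m n)
    have h2 : Iic (m n) = insert (m n) (Iio (m n)) := by
      ext x
      simp [le_iff_eq_or_lt]
    show Cardinal.mk (Iic (m n)) < μ
    rw [h2]
    refine lt_of_le_of_lt Cardinal.mk_insert_le ?_
    exact Cardinal.add_lt_of_lt hμ h1 (lt_of_lt_of_le Cardinal.one_lt_aleph0 hμ)
  · refine Cardinal.mk_le_mk_of_subset ?_
    intro x hx
    have h1 : x ≤ s (Nat.find (hex x)) := Nat.find_spec (hex x)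
    have h2 : s (Nat.find (hex x)) ≤ m n :=
      Finset.le_sup' s (Finset.mem_range.mpr (Nat.lt_succ_of_le hx))
    exact h1.trans h2

/-- The general principle: columns `C n` such that every family of fewer than `2 ^ |⨆ C n|` functions
is bounded modulo finite. -/
theorem space_of_bounded {C : ℕ → Type} [∀ n, LinearOrder (C n)] [∀ n, Nonempty (C n)]
    [∀ n, NoMaxOrder (C n)] (hb : BoundedModFinite C (2 ^ Cardinal.mk (Σ n, C n))) :
    ∃ (X : Type) (_ : TopologicalSpace X), CompactSpace X ∧ T2Space X ∧ FrechetUrysohnSpace X ∧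
      Scattered X ∧ HerWD X ∧ ¬ Bisequential X := by
  classical
  have hinf : Cardinal.aleph0 ≤ Cardinal.mk (Σ n, C n) := by
    rw [← Cardinal.infinite_iff]
    exact Infinite.of_injective (fun n : ℕ => (⟨n, Classical.arbitrary (C n)⟩ : Σ n, C n))
      (fun m n hmn => congrArg Sigma.fst hmn)
  -- the tests
  set T : Type := {B : ℕ → Set (Σ n, C n) // Antitone B ∧ ∀ k, Pos (B k)} with hT
  have hTne : Nonempty T :=
    ⟨⟨fun _ => univ, fun _ _ _ => le_rfl, fun _ N => ⟨N, le_rfl, fun c => ⟨c, le_rfl, mem_univ _⟩⟩⟩⟩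
  have hTmk : Cardinal.mk T ≤ 2 ^ Cardinal.mk (Σ n, C n) := by
    refine (Cardinal.mk_subtype_le _).trans ?_
    have h1 : Cardinal.mk (ℕ → Set (Σ n, C n)) = (2 ^ Cardinal.mk (Σ n, C n)) ^ Cardinal.aleph0 := by
      rw [← Cardinal.mk_set, ← Cardinal.mk_nat, Cardinal.power_def]
    rw [h1, ← Cardinal.power_mul, Cardinal.mul_aleph0_eq hinf]
  have hresp : ∀ (t : T) (h : ∀ n, C n), ∃ f : ∀ n, C n, (∀ n, h n < f n) ∧
      ∀ k, ∃ n, (⟨n, f n⟩ : Σ n, C n) ∈ t.1 k := by
    rintro ⟨B, hB, hpos⟩ h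
    obtain ⟨φ, hφ, hφB⟩ := exists_columns hpos
    have h1 : ∀ n, ∃ x : C n, h n < x ∧ ∀ k, φ k = n → (⟨n, x⟩ : Σ n, C n) ∈ B k := by
      intro n
      obtain ⟨c, hc⟩ := exists_gt (h n)
      by_cases hk : ∃ k, φ k = n
      · obtain ⟨k, rfl⟩ := hk
        obtain ⟨x, hx, hxB⟩ := hφB k c
        refine ⟨x, lt_of_lt_of_le hc hx, fun l hl => ?_⟩
        rw [hφ.injective hl]
        exact hxB
      · exact ⟨c, hc, fun k hk' => absurd ⟨k, hk'⟩ hk⟩
    choose f hf1 hf2 using h1
    exact ⟨f, hf1, fun k => ⟨φ k, hf2 (φ k) k rfl⟩⟩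
  choose R hR1 hR2 using hresp
  obtain ⟨X, tX, h1, h2, h3, h4, h5, h6, _⟩ := exists_space_of_tests (C := C)
    (2 ^ Cardinal.mk (Σ n, C n)) (hinf.trans (Cardinal.cantor _).le) hb T hTmk (fun t h n => {R t h n})
    (fun t h n => ⟨_, Finset.mem_singleton_self _⟩)
    (fun t h n x hx => by
      rw [Finset.mem_singleton] at hx
      rw [hx]
      exact hR1 t h n)
    (fun B hB hpos => ⟨⟨B, hB, hpos⟩, fun h k => by
      obtain ⟨n, hn⟩ := hR2 ⟨B, hB, hpos⟩ h k
      exact ⟨n, _, Finset.mem_singleton_self _, hn⟩⟩)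
  exact ⟨X, tX, h1, h2, h3, h4, h5, h6⟩

theorem space_of_singular (μ : Cardinal.{0}) (hμ : Cardinal.aleph0 < μ)
    (hcof : μ.ord.cof = Cardinal.aleph0) (hpow : (2 : Cardinal.{0}) ^ μ = Order.succ μ) :
    ∃ (X : Type) (_ : TopologicalSpace X), CompactSpace X ∧ T2Space X ∧ FrechetUrysohnSpace X ∧
      Scattered X ∧ HerWD X ∧ ¬ Bisequential X := by
  classical
  obtain ⟨M, r, ν, hM, hν, hr⟩ := exists_rank μ hμ.le hcof
  -- the columns
  set θ : ℕ → Cardinal.{0} := fun n => max (ν n) Cardinal.aleph0 with hθ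
  have hθinf : ∀ n, Cardinal.aleph0 ≤ θ n := fun n => le_max_right _ _
  have hθμ : ∀ n, θ n < μ := fun n => max_lt (hν n) hμ
  have hreg : ∀ n, (Order.succ (θ n)).IsRegular := fun n => Cardinal.isRegular_succ (hθinf n)
  set C : ℕ → Type := fun n => (Order.succ (θ n)).ord.ToType with hC
  have hCmk : ∀ n, Cardinal.mk (C n) = Order.succ (θ n) := fun n => Cardinal.mk_ord_toType _
  have hCle : ∀ n, Cardinal.mk (C n) ≤ μ := fun n => by
    rw [hCmk]
    exact Order.succ_le_of_lt (hθμ n)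
  have hne : ∀ n, Nonempty (C n) := fun n => by
    rw [← Cardinal.mk_ne_zero_iff, hCmk]
    exact (Cardinal.succ_pos _).ne'
  have hmax : ∀ n, NoMaxOrder (C n) := fun n =>
    Cardinal.noMaxOrder ((hθinf n).trans (Order.le_succ _))
  have hGmk : Cardinal.mk (Σ n, C n) ≤ μ := by
    rw [Cardinal.mk_sigma]
    refine (Cardinal.sum_le_mk_mul_iSup _).trans ?_
    rw [Cardinal.mk_nat]
    refine (mul_le_mul_right (ciSup_le' hCle) _).trans ?_
    rw [Cardinal.aleph0_mul_eq hμ.le]
  -- boundedness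
  refine space_of_bounded (C := C) ?_
  intro J f hJ
  have hJ' : Cardinal.mk J ≤ Cardinal.mk M := by
    rw [hM]
    have h1 : Cardinal.mk J < Order.succ μ := by
      refine lt_of_lt_of_le hJ ?_
      rw [← hpow]
      exact Cardinal.power_le_power_left (by norm_num) hGmk
    exact Order.lt_succ_iff.mp h1
  obtain ⟨⟨e, he⟩⟩ := hJ'
  have hbd : ∀ n, ∃ c : C n, ∀ j, r (e j) ≤ n → f j n ≤ c := by
    intro n
    by_contra hcon
    push Not at hcon
    have hcofinal : IsCofinal ((fun j => f j n) '' {j | r (e j) ≤ n}) := by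
      intro c
      obtain ⟨j, hj, hjc⟩ := hcon c
      exact ⟨f j n, ⟨j, hj, rfl⟩, hjc.le⟩
    have h1 := Order.cof_le hcofinal
    have hcofC : Order.cof (C n) = Order.succ (θ n) :=
      (Ordinal.cof_toType (Order.succ (θ n)).ord).trans (hreg n).cof_ord
    rw [hcofC] at h1
    have h2 : Cardinal.mk ((fun j => f j n) '' {j | r (e j) ≤ n}) ≤ ν n := by
      refine Cardinal.mk_image_le.trans ?_
      refine le_trans ?_ (hr n)
      exact Cardinal.mk_le_of_injective (f := fun j : {j | r (e j) ≤ n} =>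
        (⟨e j.1, j.2⟩ : {x : M | r x ≤ n})) (fun j k hjk => by
          apply Subtype.ext
          apply he
          exact congrArg Subtype.val hjk)
    have h3 : Order.succ (θ n) ≤ θ n := (h1.trans h2).trans (le_max_left _ _)
    exact absurd h3 (not_le.mpr (Order.lt_succ _))
  choose h hh using hbd
  exact ⟨h, fun j => ⟨r (e j), fun n hn => hh n j hn⟩⟩

/-- The singular cardinal hypothesis: `2 ^ μ = μ⁺` for every singular strong limit cardinal `μ`. -/
def SCH : Prop :=
  ∀ μ : Cardinal.{0}, μ.IsStrongLimit → μ.ord.cof < μ → (2 : Cardinal.{0}) ^ μ = Order.succ μ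

theorem space_of_sch (h : SCH) :
    ∃ (X : Type) (_ : TopologicalSpace X), CompactSpace X ∧ T2Space X ∧ FrechetUrysohnSpace X ∧
      Scattered X ∧ HerWD X ∧ ¬ Bisequential X := by
  have hcof : (Cardinal.beth Ordinal.omega0).ord.cof = Cardinal.aleph0 := by
    have h1 := Ordinal.cof_map_of_isNormal (Cardinal.isNormal_ord.comp Cardinal.isNormal_beth)
      Ordinal.isSuccLimit_omega0
    rw [Ordinal.cof_omega0] at h1
    exact h1
  have hlt : Cardinal.aleph0 < Cardinal.beth Ordinal.omega0 := by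
    rw [← Cardinal.beth_zero]
    exact Cardinal.beth_strictMono Ordinal.omega0_pos
  refine space_of_singular (Cardinal.beth Ordinal.omega0) hlt hcof (h _ ?_ ?_)
  · exact Cardinal.isStrongLimit_beth.mpr Ordinal.isSuccLimit_omega0.isSuccPrelimit
  · rw [hcof]
    exact hlt

end Pool.Agent.R729.WD
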