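import Pool.Agent.R729.WD.Chain

/-!
# Building chain families by recursion
-/

open Set Filter Topology

namespace Pool.Agent.R729.WD

universe u

section

variable {C : ℕ → Type u} [∀ n, LinearOrder (C n)] [∀ n, Nonempty (C n)]

/-- Every family of fewer than `κ` functions is bounded modulo finite. -/
def BoundedModFinite (C : ℕ → Type u) [∀ n, LinearOrder (C n)] (κ : Cardinal.{u}) : Prop :=
  ∀ (J : Type u) (f : J → ∀ n, C n), Cardinal.mk J < κ → ∃ h : ∀ n, C n, ∀ j, ∃ N, ∀ n, N ≤ n → f j n ≤ h n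

lemma exists_bound {κ : Cardinal.{u}} (hb : BoundedModFinite C κ) (J : Type u)
    (P : J → ∀ n, Finset (C n)) (hJ : Cardinal.mk J < κ) :
    ∃ h : ∀ n, C n, ∀ j, ∃ N, ∀ n, N ≤ n → ∀ x ∈ P j n, x ≤ h n := by
  classical
  obtain ⟨h, hh⟩ := hb J (fun j n => if hne : (P j n).Nonempty then (P j n).max' hne
    else Classical.arbitrary _) hJ
  refine ⟨h, fun j => ?_⟩
  obtain ⟨N, hN⟩ := hh j
  refine ⟨N, fun n hn x hx => ?_⟩
  have h1 := hN n hn
  have hne : (P j n).Nonempty := ⟨x, hx⟩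
  rw [dif_pos hne] at h1
  exact (Finset.le_max' _ _ hx).trans h1

open Classical in
/-- a bound, if there is one -/
noncomputable def bnd {J : Type u} (P : J → ∀ n, Finset (C n)) : ∀ n, C n :=
  if h : ∃ h : ∀ n, C n, ∀ j, ∃ N, ∀ n, N ≤ n → ∀ x ∈ P j n, x ≤ h n then h.choose
  else fun _ => Classical.arbitrary _

lemma bnd_spec {κ : Cardinal.{u}} (hb : BoundedModFinite C κ) {J : Type u}
    (P : J → ∀ n, Finset (C n)) (hJ : Cardinal.mk J < κ) (j : J) :
    ∃ N, ∀ n, N ≤ n → ∀ x ∈ P j n, x ≤ bnd P n := by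
  have h := exists_bound hb J P hJ
  unfold bnd
  rw [dif_pos h]
  exact h.choose_spec j

variable {I : Type u} [LinearOrder I] [WellFoundedLT I] {T : Type u}

/-- The recursion: at step `i` we respond to the test `τ i`, above everything that was chosen
before. -/
noncomputable def recFam (R : T → (∀ n, C n) → ∀ n, Finset (C n)) (τ : I → T) :
    I → ∀ n, Finset (C n) :=
  (wellFounded_lt (α := I)).fix fun i prev =>
    R (τ i) (bnd (J := {j // j < i}) fun j => prev j.1 j.2)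

lemma recFam_eq (R : T → (∀ n, C n) → ∀ n, Finset (C n)) (τ : I → T) (i : I) :
    recFam R τ i = R (τ i) (bnd (J := {j // j < i}) fun j => recFam R τ j.1) := by
  unfold recFam
  rw [WellFounded.fix_eq]

lemma recFam_chain {κ : Cardinal.{u}} (hb : BoundedModFinite C κ)
    (hI : ∀ i : I, Cardinal.mk {j // j < i} < κ)
    (R : T → (∀ n, C n) → ∀ n, Finset (C n)) (hRne : ∀ t h n, (R t h n).Nonempty)
    (hRgt : ∀ t h n, ∀ x ∈ R t h n, h n < x) (τ : I → T) : ChainFam (recFam R τ) := by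
  refine ⟨fun i n => ?_, fun i j hij => ?_⟩
  · rw [recFam_eq]
    exact hRne _ _ _
  · obtain ⟨N, hN⟩ := bnd_spec hb (J := {k // k < j}) (fun k => recFam R τ k.1) (hI j) ⟨i, hij⟩
    refine ⟨N, fun n hn x hx y hy => ?_⟩
    rw [recFam_eq R τ j] at hy
    exact lt_of_le_of_lt (hN n hn x hx) (hRgt _ _ _ y hy)

end

section

variable {C : ℕ → Type u} [∀ n, LinearOrder (C n)] [∀ n, Nonempty (C n)] [∀ n, NoMaxOrder (C n)]

/-- The general construction: `κ` tests, fewer than `κ` functions are bounded, and every test can be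
answered above every function. -/
theorem exists_space_of_tests (κ : Cardinal.{u}) (hκ : Cardinal.aleph0 ≤ κ) (hb : BoundedModFinite C κ)
    (T : Type u) [Nonempty T] (hT : Cardinal.mk T ≤ κ) (R : T → (∀ n, C n) → ∀ n, Finset (C n))
    (hRne : ∀ t h n, (R t h n).Nonempty) (hRgt : ∀ t h n, ∀ x ∈ R t h n, h n < x)
    (hcatch : ∀ B : ℕ → Set (Σ n, C n), Antitone B → (∀ k, Pos (B k)) →
      ∃ t, ∀ h, ∀ k, ∃ n, ∃ x ∈ R t h n, (⟨n, x⟩ : Σ n, C n) ∈ B k) :
    ∃ (X : Type u) (_ : TopologicalSpace X), CompactSpace X ∧ T2Space X ∧ FrechetUrysohnSpace X ∧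
      Scattered X ∧ HerWD X ∧ ¬ Bisequential X ∧ ∃ e : (Σ n, C n) → X, DenseRange e := by
  classical
  set I : Type u := κ.ord.ToType with hI
  have hmkI : Cardinal.mk I = κ := Cardinal.mk_ord_toType κ
  have hIio : ∀ i : I, Cardinal.mk {j // j < i} < κ := fun i => Cardinal.mk_Iio_toType_ord_lt i
  have hinf : Infinite I := by
    rw [Cardinal.infinite_iff, hmkI]
    exact hκ
  -- a surjection onto the tests
  have hsurj : ∃ τ : I → T, Function.Surjective τ := by
    have h1 : Cardinal.mk T ≤ Cardinal.mk I := hmkI ▸ hT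
    obtain ⟨⟨e, he⟩⟩ := h1
    exact ⟨Function.invFun e, Function.invFun_surjective he⟩
  obtain ⟨τ, hτ⟩ := hsurj
  have hfam := recFam_chain hb hIio R hRne hRgt τ
  refine exists_space hfam fun B hB hpos => ?_
  obtain ⟨t, ht⟩ := hcatch B hB hpos
  obtain ⟨i, rfl⟩ := hτ t
  refine ⟨i, fun k => ?_⟩
  obtain ⟨n, x, hx, hxB⟩ := ht (bnd (J := {j // j < i}) fun j => recFam R τ j.1) k
  refine ⟨⟨n, x⟩, ?_, hxB⟩
  show x ∈ recFam R τ i n
  rw [recFam_eq]
  exact hx

end

end Pool.Agent.R729.WD
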