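import Pool.Agent.R729.WD.Defs

/-!
# The one-point compactification of the Ψ-like space of an almost disjoint family

`a : I → Set G` is a family of sets, pairwise with finite intersection.  The points of the space are
the (isolated) points of `G`, one point for every `i : I` whose neighbourhoods contain almost all of
`a i`, and one point at infinity.
-/

open Set Filter Topology

namespace Pool.Agent.R729.WD

universe u

variable {G I : Type u}

/-- The points of the space. -/
inductive Sp (a : I → Set G) : Type u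
  | iso (g : G) : Sp a
  | lim (i : I) : Sp a
  | inf : Sp a

namespace Sp

variable {a : I → Set G}

/-- `U` contains almost all of `a i` if it contains the limit point of `a i`, and it contains
almost everything outside finitely many of the `a i` if it contains the point at infinity. -/
def IsOp (U : Set (Sp a)) : Prop :=
  (∀ i, lim i ∈ U → {g | g ∈ a i ∧ iso g ∉ U}.Finite) ∧
  (inf ∈ U → ∃ F : Set I, F.Finite ∧ {g | iso g ∉ U ∧ ∀ i ∈ F, g ∉ a i}.Finite ∧
    ∀ i, i ∉ F → lim i ∈ U)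

instance instTop : TopologicalSpace (Sp a) where
  IsOpen := IsOp
  isOpen_univ := by
    refine ⟨fun i _ => ?_, fun _ => ⟨∅, finite_empty, ?_, fun i _ => mem_univ _⟩⟩
    · simp
    · simp
  isOpen_inter := by
    intro U V hU hV
    refine ⟨fun i hi => ?_, fun h => ?_⟩
    · refine ((hU.1 i hi.1).union (hV.1 i hi.2)).subset ?_
      rintro g ⟨hg, hn⟩
      by_cases h : iso g ∈ U
      · exact Or.inr ⟨hg, fun h' => hn ⟨h, h'⟩⟩
      · exact Or.inl ⟨hg, h⟩
    · obtain ⟨F, hF, hF2, hF3⟩ := hU.2 h.1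
      obtain ⟨F', hF', hF2', hF3'⟩ := hV.2 h.2
      refine ⟨F ∪ F', hF.union hF', (hF2.union hF2').subset ?_, ?_⟩
      · rintro g ⟨hn, hg⟩
        by_cases h : iso g ∈ U
        · exact Or.inr ⟨fun h' => hn ⟨h, h'⟩, fun i hi => hg i (Or.inr hi)⟩
        · exact Or.inl ⟨h, fun i hi => hg i (Or.inl hi)⟩
      · intro i hi
        exact ⟨hF3 i fun h => hi (Or.inl h), hF3' i fun h => hi (Or.inr h)⟩
  isOpen_sUnion := by
    intro S hS
    refine ⟨fun i hi => ?_, fun h => ?_⟩
    · obtain ⟨U, hU, hiU⟩ := hi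
      refine ((hS U hU).1 i hiU).subset ?_
      rintro g ⟨hg, hn⟩
      exact ⟨hg, fun h => hn ⟨U, hU, h⟩⟩
    · obtain ⟨U, hU, hiU⟩ := h
      obtain ⟨F, hF, hF2, hF3⟩ := (hS U hU).2 hiU
      refine ⟨F, hF, hF2.subset ?_, fun i hi => ⟨U, hU, hF3 i hi⟩⟩
      rintro g ⟨hn, hg⟩
      exact ⟨fun h => hn ⟨U, hU, h⟩, hg⟩

lemma isOpen_iff {U : Set (Sp a)} : IsOpen U ↔ IsOp U := Iff.rfl

lemma isOpen_of_no_lim {U : Set (Sp a)} (h1 : ∀ i, lim i ∉ U) (h2 : inf ∉ U) : IsOpen U :=
  ⟨fun i hi => absurd hi (h1 i), fun h => absurd h h2⟩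

lemma isOpen_iso (g : G) : IsOpen ({iso g} : Set (Sp a)) :=
  isOpen_of_no_lim (fun i h => by simp at h) (fun h => by simp at h)

/-- The clopen set belonging to `i`. -/
def K (a : I → Set G) (i : I) : Set (Sp a) := {x | x = lim i ∨ ∃ g ∈ a i, x = iso g}

lemma iso_mem_K {i : I} {g : G} : (iso g : Sp a) ∈ K a i ↔ g ∈ a i := by
  simp [K]

lemma lim_mem_K {i j : I} : (lim j : Sp a) ∈ K a i ↔ j = i := by
  simp [K]

lemma inf_not_mem_K {i : I} : (inf : Sp a) ∉ K a i := by
  simp [K]

/-- basic neighbourhoods of limit points -/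
lemma isOpen_lim_nhd (i : I) (E : Set G) (hE : (E ∩ a i).Finite) :
    IsOpen ({x | x = lim i ∨ ∃ g ∈ a i \ E, x = iso g} : Set (Sp a)) := by
  refine ⟨fun j hj => ?_, fun h => by simp at h⟩
  have hji : j = i := by simpa using hj
  subst hji
  refine hE.subset ?_
  rintro g ⟨hg, hn⟩
  refine ⟨?_, hg⟩
  by_contra hgE
  exact hn (Or.inr ⟨g, ⟨hg, hgE⟩, rfl⟩)

lemma isOpen_K (i : I) : IsOpen (K a i) := by
  have h := isOpen_lim_nhd (a := a) i ∅ (by simp)
  simpa [K] using h

variable (had : ∀ i j, i ≠ j → (a i ∩ a j).Finite)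
include had

lemma isClosed_K (i : I) : IsClosed (K a i) := by
  rw [← isOpen_compl_iff]
  refine ⟨fun j hj => ?_, fun _ => ⟨{i}, finite_singleton i, ?_, ?_⟩⟩
  · have hji : j ≠ i := fun h => hj (lim_mem_K.mpr h)
    refine (had j i hji).subset ?_
    rintro g ⟨hg, hn⟩
    have : (iso g : Sp a) ∈ K a i := by
      by_contra h
      exact hn h
    exact ⟨hg, iso_mem_K.mp this⟩
  · convert Set.finite_empty (α := G)
    ext g
    simp only [mem_ofPred_eq, mem_empty_iff_false, iff_false]
    rintro ⟨hn, hg⟩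
    have : (iso g : Sp a) ∈ K a i := by
      by_contra h
      exact hn h
    exact hg i rfl (iso_mem_K.mp this)
  · intro j hj h
    exact hj (lim_mem_K.mp h)

omit had in
/-- complements of finitely many `K i` and finitely many isolated points -/
lemma isOpen_inf_nhd (had : ∀ i j, i ≠ j → (a i ∩ a j).Finite) (F : Set I) (hF : F.Finite) (E : Set G)
    (hE : E.Finite) : IsOpen ({x | (∀ i ∈ F, x ∉ K a i) ∧ ∀ g ∈ E, x ≠ iso g} : Set (Sp a)) := by
  refine ⟨fun j hj => ?_, fun _ => ⟨F, hF, ?_, ?_⟩⟩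
  · have hj1 := hj.1
    have : (E ∪ ⋃ i ∈ F, (a i ∩ a j)).Finite := by
      refine hE.union (hF.biUnion fun i hi => had i j ?_)
      rintro rfl
      exact hj1 i hi (lim_mem_K.mpr rfl)
    refine this.subset ?_
    rintro g ⟨hg, hn⟩
    by_contra hcon
    apply hn
    refine ⟨fun i hi h => hcon (Or.inr ?_), fun e he h => hcon (Or.inl ?_)⟩
    · exact mem_biUnion hi ⟨iso_mem_K.mp h, hg⟩
    · have : g = e := by simpa using h
      exact this ▸ he
  · refine hE.subset ?_
    rintro g ⟨hn, hg⟩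
    by_contra hcon
    apply hn
    refine ⟨fun i hi h => hg i hi (iso_mem_K.mp h), fun e he h => hcon ?_⟩
    have : g = e := by simpa using h
    exact this ▸ he
  · intro i hi
    refine ⟨fun j hj h => hi ?_, fun e _ h => by simp at h⟩
    rw [lim_mem_K] at h
    exact h ▸ hj

lemma t2 : T2Space (Sp a) := by
  refine ⟨?_⟩
  -- separate by clopen sets
  have key : ∀ x y : Sp a, x ≠ y → ∃ U : Set (Sp a), IsOpen U ∧ IsClosed U ∧ x ∈ U ∧ y ∉ U ∨
      ∃ U : Set (Sp a), IsOpen U ∧ IsClosed U ∧ y ∈ U ∧ x ∉ U := by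
    intro x y hxy
    have hiso : ∀ g : G, IsClosed ({iso g} : Set (Sp a)) := by
      intro g
      rw [← isOpen_compl_iff]
      have := isOpen_inf_nhd had ∅ finite_empty {g} (finite_singleton g)
      convert this using 1
      ext x
      simp
    rcases x with g | i | _
    · exact ⟨{iso g}, Or.inl ⟨isOpen_iso g, hiso g, rfl, fun h => hxy h.symm⟩⟩
    · rcases y with g | j | _
      · exact ⟨univ, Or.inr ⟨{iso g}, isOpen_iso g, hiso g, rfl, fun h => hxy h⟩⟩
      · refine ⟨K a i, Or.inl ⟨isOpen_K i, isClosed_K had i, lim_mem_K.mpr rfl, ?_⟩⟩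
        intro h
        rw [lim_mem_K] at h
        exact hxy (by rw [h])
      · exact ⟨K a i, Or.inl ⟨isOpen_K i, isClosed_K had i, lim_mem_K.mpr rfl, inf_not_mem_K⟩⟩
    · rcases y with g | j | _
      · exact ⟨univ, Or.inr ⟨{iso g}, isOpen_iso g, hiso g, rfl, fun h => hxy h⟩⟩
      · exact ⟨univ, Or.inr ⟨K a j, isOpen_K j, isClosed_K had j, lim_mem_K.mpr rfl, inf_not_mem_K⟩⟩
      · exact absurd rfl hxy
  intro x y hxy
  obtain ⟨U, h | ⟨U, h⟩⟩ := key x y hxy
  · exact ⟨U, Uᶜ, h.1, h.2.1.isOpen_compl, h.2.2.1, h.2.2.2, disjoint_compl_right⟩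
  · exact ⟨Uᶜ, U, h.2.1.isOpen_compl, h.1, h.2.2.2, h.2.2.1, disjoint_compl_left⟩

omit had in
lemma nhds_lim_of_cofinite {i : I} (F : Ultrafilter (Sp a)) (hK : K a i ∈ F)
    (hcof : ∀ x : Sp a, {x}ᶜ ∈ F) : (F : Filter (Sp a)) ≤ 𝓝 (lim i) := by
  intro V hV
  obtain ⟨U, hUV, hU, hi⟩ := mem_nhds_iff.mp hV
  have hfin := hU.1 i hi
  have h1 : (iso '' {g | g ∈ a i ∧ (iso g : Sp a) ∉ U})ᶜ ∈ F := by
    have : (⋃ x ∈ (iso '' {g | g ∈ a i ∧ (iso g : Sp a) ∉ U}), ({x} : Set (Sp a)))ᶜ ∈ F := by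
      rw [compl_iUnion₂]
      exact (Filter.biInter_mem (hfin.image _)).mpr fun x _ => hcof x
    rwa [Set.biUnion_of_singleton] at this
  refine Filter.mem_of_superset (Filter.inter_mem hK h1) ?_
  rintro x ⟨hx1, hx2⟩
  apply hUV
  rcases hx1 with rfl | ⟨g, hg, rfl⟩
  · exact hi
  · by_contra hn
    exact hx2 ⟨g, ⟨hg, hn⟩, rfl⟩

omit had in
lemma nhds_inf_of_compl (F : Ultrafilter (Sp a)) (hK : ∀ i, (K a i)ᶜ ∈ F)
    (hcof : ∀ x : Sp a, {x}ᶜ ∈ F) : (F : Filter (Sp a)) ≤ 𝓝 inf := by
  intro V hV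
  obtain ⟨U, hUV, hU, hi⟩ := mem_nhds_iff.mp hV
  obtain ⟨J, hJ, hfin, hJ2⟩ := hU.2 hi
  have h1 : (iso '' {g | (iso g : Sp a) ∉ U ∧ ∀ i ∈ J, g ∉ a i})ᶜ ∈ F := by
    have : (⋃ x ∈ (iso '' {g | (iso g : Sp a) ∉ U ∧ ∀ i ∈ J, g ∉ a i}), ({x} : Set (Sp a)))ᶜ ∈ F := by
      rw [compl_iUnion₂]
      exact (Filter.biInter_mem (hfin.image _)).mpr fun x _ => hcof x
    rwa [Set.biUnion_of_singleton] at this
  have h2 : (⋂ i ∈ J, (K a i)ᶜ) ∈ F := (Filter.biInter_mem hJ).mpr fun i _ => hK i
  refine Filter.mem_of_superset (Filter.inter_mem h2 h1) ?_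
  rintro x ⟨hx1, hx2⟩
  apply hUV
  rw [mem_iInter₂] at hx1
  rcases x with g | i | _
  · by_contra hn
    exact hx2 ⟨g, ⟨hn, fun i hi h => hx1 i hi (iso_mem_K.mpr h)⟩, rfl⟩
  · apply hJ2
    intro hiJ
    exact hx1 i hiJ (lim_mem_K.mpr rfl)
  · exact hi

omit had in
lemma compact : CompactSpace (Sp a) := by
  refine ⟨isCompact_iff_ultrafilter_le_nhds.mpr ?_⟩
  intro F _
  by_cases h : ∃ x : Sp a, {x} ∈ F
  · obtain ⟨x, hx⟩ := h
    refine ⟨x, mem_univ x, ?_⟩
    intro V hV
    exact Filter.mem_of_superset hx (singleton_subset_iff.mpr (mem_of_mem_nhds hV))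
  · have hcof : ∀ x : Sp a, {x}ᶜ ∈ F := by
      intro x
      rw [Ultrafilter.compl_mem_iff_notMem]
      exact fun hx => h ⟨x, hx⟩
    by_cases hK : ∃ i, K a i ∈ F
    · obtain ⟨i, hi⟩ := hK
      exact ⟨lim i, mem_univ _, nhds_lim_of_cofinite F hi hcof⟩
    · refine ⟨inf, mem_univ _, nhds_inf_of_compl F ?_ hcof⟩
      intro i
      rw [Ultrafilter.compl_mem_iff_notMem]
      exact fun hx => hK ⟨i, hx⟩

omit had in
lemma scattered : Scattered (Sp a) := by
  intro S hS
  by_cases h1 : ∃ g, iso g ∈ S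
  · obtain ⟨g, hg⟩ := h1
    refine ⟨iso g, hg, {iso g}, isOpen_iso g, ?_⟩
    ext x
    constructor
    · exact fun h => h.1
    · rintro rfl
      exact ⟨rfl, hg⟩
  · by_cases h2 : ∃ i, lim i ∈ S
    · obtain ⟨i, hi⟩ := h2
      refine ⟨lim i, hi, K a i, isOpen_K i, ?_⟩
      ext x
      constructor
      · rintro ⟨rfl | ⟨g, _, rfl⟩, hx⟩
        · rfl
        · exact absurd ⟨g, hx⟩ h1
      · rintro rfl
        exact ⟨lim_mem_K.mpr rfl, hi⟩
    · obtain ⟨x, hx⟩ := hS
      have hxinf : x = inf := by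
        rcases x with g | i | _
        · exact absurd ⟨g, hx⟩ h1
        · exact absurd ⟨i, hx⟩ h2
        · rfl
      refine ⟨x, hx, univ, isOpen_univ, ?_⟩
      ext y
      constructor
      · rintro ⟨_, hy⟩
        rcases y with g | i | _
        · exact absurd ⟨g, hy⟩ h1
        · exact absurd ⟨i, hy⟩ h2
        · exact hxinf.symm
      · rintro rfl
        exact ⟨mem_univ _, hx⟩

/-- The separation property of the family which gives hereditary wD. -/
def Sep (a : I → Set G) : Prop :=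
  ∀ D : Set I, D.Infinite → ∃ s : ℕ → I, Function.Injective s ∧ (∀ k, s k ∈ D) ∧
    ∃ E : ℕ → Set G, (∀ k, (E k ∩ a (s k)).Finite) ∧
      (∀ k l, k ≠ l → Disjoint (a (s k) \ E k) (a (s l) \ E l)) ∧
      ∀ i, {g | g ∈ a i ∧ ∃ k, s k ≠ i ∧ g ∈ a (s k) \ E k}.Finite

omit had in
/-- a closed discrete set has neighbourhoods meeting it in at most one point -/
lemma exists_nhd_of_closed_discrete {Y : Type u} [TopologicalSpace Y] {D : Set Y} (hcl : IsClosed D)
    (hdis : DiscreteTopology D) (y : Y) : ∃ V : Set Y, IsOpen V ∧ y ∈ V ∧ ∀ d ∈ D, d ∈ V → d = y := by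
  by_cases hy : y ∈ D
  · have : IsOpen ({⟨y, hy⟩} : Set D) := isOpen_discrete _
    obtain ⟨V, hV, hVy⟩ := isOpen_induced_iff.mp this
    refine ⟨V, hV, ?_, fun d hd hdV => ?_⟩
    · have : (⟨y, hy⟩ : D) ∈ Subtype.val ⁻¹' V := by
        rw [hVy]
        rfl
      exact this
    · have : (⟨d, hd⟩ : D) ∈ Subtype.val ⁻¹' V := hdV
      rw [hVy] at this
      exact congrArg Subtype.val this
  · exact ⟨Dᶜ, hcl.isOpen_compl, hy, fun d hd hdV => absurd hd hdV⟩

omit had in
lemma herWD (hsep : Sep a) : HerWD (Sp a) := by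
  intro Y D hDinf hDcl hDdis
  have hnhd := exists_nhd_of_closed_discrete hDcl hDdis
  by_cases h1 : {y : Y | y ∈ D ∧ ∃ g, y.1 = iso g}.Infinite
  · -- infinitely many isolated points
    refine ⟨{y : Y | y ∈ D ∧ ∃ g, y.1 = iso g}, fun y hy => hy.1, h1, fun y => {y}, ?_, ?_⟩
    · rintro y ⟨_, g, hg⟩
      refine ⟨?_, rfl⟩
      have : ({y} : Set Y) = Subtype.val ⁻¹' ({iso g} : Set (Sp a)) := by
        ext z
        simp only [mem_singleton_iff, mem_preimage]
        rw [← hg, Subtype.ext_iff]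
      show IsOpen ({y} : Set Y)
      rw [this]
      exact (isOpen_iso g).preimage continuous_subtype_val
    · intro x
      obtain ⟨V, hV, hxV, hVD⟩ := hnhd x
      refine ⟨V, hV.mem_nhds hxV, ?_⟩
      rintro d hd e he ⟨z, hz, hzV⟩ ⟨w, hw, hwV⟩
      rw [mem_singleton_iff] at hz hw
      subst hz hw
      rw [hVD _ hd.1 hzV, hVD _ he.1 hwV]
  · -- infinitely many limit points
    rw [Set.not_infinite] at h1
    have h2 : {i : I | ∃ h : lim i ∈ Y, (⟨lim i, h⟩ : Y) ∈ D}.Infinite := by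
      intro hfin
      apply hDinf
      have h3 : (Subtype.val '' D : Set (Sp a)).Finite := by
        have h4 : (Subtype.val '' {y : Y | y ∈ D ∧ ∃ g, y.1 = iso g} : Set (Sp a)).Finite :=
          h1.image _
        refine ((h4.union (hfin.image lim)).union (finite_singleton inf)).subset ?_
        rintro _ ⟨y, hy, rfl⟩
        obtain ⟨y, hyY⟩ := y
        rcases y with g | i | _
        · exact Or.inl (Or.inl ⟨⟨iso g, hyY⟩, ⟨hy, g, rfl⟩, rfl⟩)
        · exact Or.inl (Or.inr ⟨i, ⟨hyY, hy⟩, rfl⟩)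
        · exact Or.inr rfl
      exact Set.Finite.of_finite_image h3 Subtype.val_injective.injOn
    obtain ⟨s, hs, hsD, E, hE, hdisj, hfin⟩ := hsep _ h2
    choose hY hD using hsD
    have hinfY : inf ∉ Y := by
      intro hinf
      obtain ⟨V, hV, hxV, hVD⟩ := hnhd ⟨inf, hinf⟩
      obtain ⟨U, hU, rfl⟩ := isOpen_induced_iff.mp hV
      obtain ⟨J, hJ, _, hJ3⟩ := hU.2 hxV
      have : ∃ k, s k ∉ J := by
        by_contra hcon
        push Not at hcon
        exact (infinite_range_of_injective hs) (hJ.subset (range_subset_iff.mpr hcon))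
      obtain ⟨k, hk⟩ := this
      have := hVD _ (hD k) (hJ3 _ hk)
      have h5 := congrArg Subtype.val this
      simp at h5
    -- the open sets
    set W : I → Set G → Set (Sp a) := fun i E => {x | x = lim i ∨ ∃ g ∈ a i \ E, x = iso g} with hW
    have hWopen : ∀ k, IsOpen (W (s k) (E k)) := fun k => isOpen_lim_nhd _ _ (hE k)
    set e : ℕ → Y := fun k => ⟨lim (s k), hY k⟩ with he
    have heinj : Function.Injective e := by
      intro k l hkl
      apply hs
      have := congrArg Subtype.val hkl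
      simpa [he] using this
    set inv : Y → ℕ := Function.invFun e with hinv
    have hinve : ∀ k, inv (e k) = k := fun k => Function.leftInverse_invFun heinj k
    refine ⟨range e, ?_, infinite_range_of_injective heinj,
      fun y => Subtype.val ⁻¹' (W (s (inv y)) (E (inv y))), ?_, ?_⟩
    · rintro _ ⟨k, rfl⟩
      exact hD k
    · rintro _ ⟨k, rfl⟩
      dsimp only
      rw [hinve]
      exact ⟨(hWopen k).preimage continuous_subtype_val, Or.inl rfl⟩
    · rintro ⟨x, hx⟩
      rcases x with g | i | _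
      · refine ⟨{⟨iso g, hx⟩}, ?_, ?_⟩
        · have : IsOpen ({⟨iso g, hx⟩} : Set Y) := by
            have h6 : ({⟨iso g, hx⟩} : Set Y) = Subtype.val ⁻¹' ({iso g} : Set (Sp a)) := by
              ext z
              simp [Subtype.ext_iff]
            rw [h6]
            exact (isOpen_iso g).preimage continuous_subtype_val
          exact this.mem_nhds rfl
        · rintro _ ⟨k, rfl⟩ _ ⟨l, rfl⟩ ⟨z, hz1, hz2⟩ ⟨w, hw1, hw2⟩
          rw [mem_singleton_iff] at hz2 hw2
          subst hz2 hw2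
          dsimp only at hz1 hw1
          rw [hinve] at hz1 hw1
          by_contra hne
          have hkl : k ≠ l := fun h => hne (by rw [h])
          have h7 : g ∈ a (s k) \ E k := by
            rcases hz1 with h | ⟨g', hg', h⟩
            · simp at h
            · have : g = g' := by simpa using h
              exact this ▸ hg'
          have h8 : g ∈ a (s l) \ E l := by
            rcases hw1 with h | ⟨g', hg', h⟩
            · simp at h
            · have : g = g' := by simpa using h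
              exact this ▸ hg'
          exact Set.disjoint_left.mp (hdisj k l hkl) h7 h8
      · set E' : Set G := {g | g ∈ a i ∧ ∃ k, s k ≠ i ∧ g ∈ a (s k) \ E k} with hE'
        have hopen : IsOpen (W i E') := isOpen_lim_nhd _ _ ((hfin i).inter_of_left _)
        refine ⟨Subtype.val ⁻¹' (W i E'),
          (hopen.preimage continuous_subtype_val).mem_nhds (Or.inl rfl), ?_⟩
        have key : ∀ k, ((Subtype.val ⁻¹' (W (s (inv (e k))) (E (inv (e k)))) : Set Y) ∩
            Subtype.val ⁻¹' (W i E')).Nonempty → s k = i := by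
          rintro k ⟨⟨z, hzY⟩, hz1, hz2⟩
          rw [hinve] at hz1
          by_contra hne
          rcases hz1 with h | ⟨g, hg, h⟩
          · dsimp only at h
            subst h
            rcases hz2 with h' | ⟨g', _, h'⟩
            · simp only [Sp.lim.injEq] at h'
              exact hne h'
            · simp at h'
          · dsimp only at h
            subst h
            rcases hz2 with h' | ⟨g', hg', h'⟩
            · simp at h'
            · have : g = g' := by simpa using h'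
              subst this
              exact hg'.2 ⟨hg'.1, k, hne, hg⟩
        rintro _ ⟨k, rfl⟩ _ ⟨l, rfl⟩ hk hl
        have h9 : s k = s l := (key k hk).trans (key l hl).symm
        rw [hs h9]
      · exact absurd hx hinfY

omit had in
lemma tendsto_lim {i : I} {b : ℕ → G} (hb : Function.Injective b) (hba : ∀ k, b k ∈ a i) :
    Tendsto (fun k => (iso (b k) : Sp a)) atTop (𝓝 (lim i)) := by
  rw [tendsto_nhds]
  intro U hU hi
  have hfin := hU.1 i hi
  rw [← Nat.cofinite_eq_atTop, mem_cofinite]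
  refine (Set.Finite.preimage (hb.injOn) hfin).subset ?_
  intro k hk
  exact ⟨hba k, hk⟩

omit had in
lemma tendsto_inf {b : ℕ → G} (hb : Function.Injective b) (hba : ∀ i, {k | b k ∈ a i}.Finite) :
    Tendsto (fun k => (iso (b k) : Sp a)) atTop (𝓝 inf) := by
  rw [tendsto_nhds]
  intro U hU hi
  obtain ⟨J, hJ, hfin, _⟩ := hU.2 hi
  rw [← Nat.cofinite_eq_atTop, mem_cofinite]
  refine ((Set.Finite.preimage (hb.injOn) hfin).union
    (hJ.biUnion fun i _ => hba i)).subset ?_
  intro k hk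
  by_cases h : ∃ i ∈ J, b k ∈ a i
  · obtain ⟨i, hi, hik⟩ := h
    exact Or.inr (mem_biUnion hi hik)
  · push Not at h
    exact Or.inl ⟨hk, h⟩

lemma frechet (hsep : Sep a) : FrechetUrysohnSpace (Sp a) := by
  refine ⟨fun M x hx => ?_⟩
  rw [mem_closure_iff] at hx
  by_cases hxM : x ∈ M
  · exact subset_seqClosure hxM
  rcases x with g | i | _
  · obtain ⟨y, hy1, hy2⟩ := hx {iso g} (isOpen_iso g) rfl
    rw [mem_singleton_iff] at hy1
    exact absurd (hy1 ▸ hy2) hxM
  · -- limit point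
    have hinf : {g | g ∈ a i ∧ (iso g : Sp a) ∈ M}.Infinite := by
      intro hfin
      obtain ⟨y, hy1, hy2⟩ := hx _ (isOpen_lim_nhd (a := a) i {g | g ∈ a i ∧ (iso g : Sp a) ∈ M}
        (hfin.inter_of_left _)) (Or.inl rfl)
      rcases hy1 with rfl | ⟨g, hg, rfl⟩
      · exact hxM hy2
      · exact hg.2 ⟨hg.1, hy2⟩
    refine ⟨fun k => iso (hinf.natEmbedding _ k : G), fun k => (hinf.natEmbedding _ k).2.2, ?_⟩
    refine tendsto_lim ?_ fun k => (hinf.natEmbedding _ k).2.1
    exact fun k l h => (hinf.natEmbedding _).injective (Subtype.ext h)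
  · -- the point at infinity
    by_cases h1 : {i | (lim i : Sp a) ∈ M}.Infinite
    · refine ⟨fun k => lim (h1.natEmbedding _ k : I), fun k => (h1.natEmbedding _ k).2, ?_⟩
      rw [tendsto_nhds]
      intro U hU hi
      obtain ⟨J, hJ, _, hJ3⟩ := hU.2 hi
      rw [← Nat.cofinite_eq_atTop, mem_cofinite]
      have hinj : Function.Injective fun k => (h1.natEmbedding _ k : I) :=
        fun k l h => (h1.natEmbedding _).injective (Subtype.ext h)
      refine (Set.Finite.preimage hinj.injOn hJ).subset ?_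
      intro k hk
      by_contra hcon
      exact hk (hJ3 _ hcon)
    · rw [Set.not_infinite] at h1
      set B : Set G := {g | (iso g : Sp a) ∈ M} with hB
      have hBinf : ∀ F : Set I, F.Finite → {g | g ∈ B ∧ ∀ i ∈ F, g ∉ a i}.Infinite := by
        intro F hF hfin
        obtain ⟨y, hy1, hy2⟩ := hx _ (isOpen_inf_nhd had (F ∪ {i | (lim i : Sp a) ∈ M})
          (hF.union h1) _ hfin) ⟨fun i _ => inf_not_mem_K, fun g _ h => by simp at h⟩
        rcases y with g | i | _
        · refine hy1.2 g ⟨hy2, fun i hi h => hy1.1 i (Or.inl hi) (iso_mem_K.mpr h)⟩ rfl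
        · exact hy1.1 i (Or.inr hy2) (lim_mem_K.mpr rfl)
        · exact hxM hy2
      suffices h : ∃ b : ℕ → G, Function.Injective b ∧ (∀ k, b k ∈ B) ∧ ∀ i, {k | b k ∈ a i}.Finite by
        obtain ⟨b, hb1, hb2, hb3⟩ := h
        exact ⟨fun k => iso (b k), hb2, tendsto_inf hb1 hb3⟩
      by_cases hΓ : {i | (a i ∩ B).Infinite}.Infinite
      · obtain ⟨s, hs, hsD, E, hE, hdisj, hfin⟩ := hsep _ hΓ
        have hex : ∀ k, ∃ g, g ∈ a (s k) \ E k ∧ g ∈ B := by
          intro k
          by_contra hcon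
          push Not at hcon
          apply hsD k
          refine (hE k).subset ?_
          rintro g ⟨hg1, hg2⟩
          refine ⟨?_, hg1⟩
          by_contra hgE
          exact hcon g ⟨hg1, hgE⟩ hg2
        choose b hb1 hb2 using hex
        have hbinj : Function.Injective b := by
          intro k l hkl
          by_contra hne
          exact Set.disjoint_left.mp (hdisj k l hne) (hb1 k) (hkl ▸ hb1 l)
        refine ⟨b, hbinj, hb2, fun i => ?_⟩
        refine ((Set.Finite.preimage hbinj.injOn (hfin i)).union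
          (Set.Finite.preimage hs.injOn (finite_singleton i))).subset ?_
        intro k hk
        by_cases hki : s k = i
        · exact Or.inr hki
        · exact Or.inl ⟨hk, k, hki, hb1 k⟩
      · rw [Set.not_infinite] at hΓ
        have h5 := hBinf _ hΓ
        have hinj : Function.Injective fun k => (h5.natEmbedding _ k : G) :=
          fun k l h => (h5.natEmbedding _).injective (Subtype.ext h)
        refine ⟨fun k => (h5.natEmbedding _ k : G), hinj, fun k => (h5.natEmbedding _ k).2.1, ?_⟩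
        intro i
        by_cases hi : (a i ∩ B).Infinite
        · convert Set.finite_empty (α := ℕ)
          ext k
          simp only [mem_ofPred_eq, mem_empty_iff_false, iff_false]
          exact (h5.natEmbedding _ k).2.2 i hi
        · rw [Set.not_infinite] at hi
          refine (Set.Finite.preimage hinj.injOn hi).subset ?_
          intro k hk
          exact ⟨hk, (h5.natEmbedding _ k).2.1⟩

omit had in
lemma denseRange_iso (hinf : ∀ i, (a i).Infinite) (hI : Infinite I) :
    DenseRange (iso : G → Sp a) := by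
  have h1 : ∀ i, (lim i : Sp a) ∈ closure (range (iso : G → Sp a)) := by
    intro i
    rw [mem_closure_iff]
    intro U hU hi
    have hfin := hU.1 i hi
    by_contra hcon
    apply hinf i
    refine hfin.subset ?_
    intro g hg
    refine ⟨hg, fun hgU => hcon ⟨iso g, hgU, g, rfl⟩⟩
  intro x
  rcases x with g | i | _
  · exact subset_closure ⟨g, rfl⟩
  · exact h1 i
  · rw [mem_closure_iff]
    intro U hU hi
    obtain ⟨J, hJ, _, hJ3⟩ := hU.2 hi
    obtain ⟨i, hi⟩ := hJ.infinite_compl.nonempty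
    obtain ⟨y, hy1, hy2⟩ := mem_closure_iff.mp (h1 i) U hU (hJ3 i hi)
    exact ⟨y, hy1, hy2⟩

lemma not_bisequential (𝒢 : Filter G) (hne : 𝒢.NeBot) (hcof : ∀ g : G, {g}ᶜ ∈ 𝒢)
    (ha : ∀ i, (a i)ᶜ ∈ 𝒢)
    (hcatch : ∀ B : ℕ → Set G, Antitone B → (∀ k, (B k)ᶜ ∉ 𝒢) → ∃ i, ∀ k, (a i ∩ B k).Nonempty) :
    ¬ Bisequential (Sp a) := by
  intro hB
  set U₀ : Ultrafilter G := Ultrafilter.of 𝒢 with hU₀
  have hle : (U₀ : Filter G) ≤ 𝒢 := Ultrafilter.of_le _
  set F : Ultrafilter (Sp a) := U₀.map iso with hF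
  have hFinf : (F : Filter (Sp a)) ≤ 𝓝 inf := by
    refine nhds_inf_of_compl F ?_ ?_
    · intro i
      refine Filter.mem_of_superset (x := (a i)ᶜ) (hle (ha i)) ?_
      intro g hg h
      exact hg (iso_mem_K.mp h)
    · intro x
      rcases x with g | i | _
      · refine Filter.mem_of_superset (x := {g}ᶜ) (hle (hcof g)) ?_
        intro g' hg' h
        have : g' = g := by simpa using h
        exact hg' this
      · show (iso ⁻¹' ({lim i}ᶜ : Set (Sp a)) : Set G) ∈ U₀
        refine Filter.mem_of_superset (x := univ) Filter.univ_mem ?_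
        intro g' _ h
        simp at h
      · show (iso ⁻¹' ({inf}ᶜ : Set (Sp a)) : Set G) ∈ U₀
        refine Filter.mem_of_superset (x := univ) Filter.univ_mem ?_
        intro g' _ h
        simp at h
  obtain ⟨A, hA1, hA2, hA3⟩ := hB inf F hFinf
  obtain ⟨i, hi⟩ := hcatch (fun k => iso ⁻¹' A k) (fun k l hkl => preimage_mono (hA1 hkl)) (by
    intro k hk
    have h1 : (iso ⁻¹' A k : Set G) ∈ U₀ := hA2 k
    have h2 : (iso ⁻¹' A k : Set G)ᶜ ∈ U₀ := hle hk
    exact (Ultrafilter.compl_mem_iff_notMem.mp h2) h1)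
  have hV : (K a i)ᶜ ∈ 𝓝 (inf : Sp a) := by
    exact (isClosed_K had i).isOpen_compl.mem_nhds inf_not_mem_K
  obtain ⟨n, hn⟩ := hA3 _ hV
  obtain ⟨g, hg1, hg2⟩ := hi n
  exact hn hg2 (iso_mem_K.mpr hg1)

end Sp

end Pool.Agent.R729.WD
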